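import Mathlib
import Pool.Agent.helper61.DL.Defs2
import Pool.Agent.helper74.DL.P1

set_option autoImplicit false

/-! # Module LIM, part 1: general lemmas (compactness of cones, generic positions, determinants) -/

namespace Pool.Agent.helper51.DL

open Finset Filter Topology Pool.Agent.helper61.DL

/-- limits of points of cones with converging rays -/
theorem compact_cone {M ℓ : ℕ} {β : Type} [Fintype β] (R : ℕ → β → Fin ℓ → Fin M → ℝ)
    (R0 : β → Fin ℓ → Fin M → ℝ) (hR : ∀ x j i, Tendsto (fun m => R m x j i) atTop (𝓝 (R0 x j i)))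
    (hnn : ∀ m x j i, 0 ≤ R m x j i) (h1 : ∀ x j, ∃ i, ∀ m, R m x j i = 1)
    (k : ℕ → Fin M → ℝ) (k0 : Fin M → ℝ) (hk : ∀ i, Tendsto (fun m => k m i) atTop (𝓝 (k0 i)))
    (hc : ∃ᶠ m in atTop, ∃ x, ∃ t : Fin ℓ → ℝ, (∀ j, 0 ≤ t j) ∧ k m = ∑ j, t j • R m x j) :
    ∃ x, ∃ t : Fin ℓ → ℝ, (∀ j, 0 ≤ t j) ∧ k0 = ∑ j, t j • R0 x j := by
  classical
  -- pigeonhole
  obtain ⟨x, hx⟩ : ∃ x, ∃ᶠ m in atTop, ∃ t : Fin ℓ → ℝ, (∀ j, 0 ≤ t j) ∧
      k m = ∑ j, t j • R m x j := by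
    by_contra hcon
    push Not at hcon
    have h2 : ∀ᶠ m in atTop, ∀ x, ¬ ∃ t : Fin ℓ → ℝ, (∀ j, 0 ≤ t j) ∧
        k m = ∑ j, t j • R m x j := by
      rw [Filter.eventually_all]
      intro x
      exact Filter.not_frequently.1 (by simpa using hcon x)
    exact hc (h2.mono fun m hm => by
      rintro ⟨x, hx⟩
      exact hm x hx)
  obtain ⟨φ, hφ, hφ2⟩ := Filter.extraction_of_frequently_atTop hx
  choose t ht0 ht using hφ2
  -- bounds
  have hbd : ∀ i, ∃ B : ℝ, ∀ m, k m i ≤ B := by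
    intro i
    obtain ⟨B, hB⟩ := (hk i).bddAbove_range
    exact ⟨B, fun m => hB ⟨m, rfl⟩⟩
  choose B hB using hbd
  choose c hcc using h1
  have htB : ∀ m, t m ∈ Set.Icc (0 : Fin ℓ → ℝ) (fun j => B (c x j)) := by
    intro m
    refine ⟨fun j => ht0 m j, fun j => ?_⟩
    have h2 := congrFun (ht m) (c x j)
    have h3 : t m j ≤ (∑ j', t m j' • R (φ m) x j') (c x j) := by
      rw [Finset.sum_apply]
      have h4 : t m j = (t m j • R (φ m) x j) (c x j) := by
        simp [hcc x j (φ m)]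
      rw [h4]
      exact Finset.single_le_sum (f := fun j' => (t m j' • R (φ m) x j') (c x j))
        (fun j' _ => by
          simp only [Pi.smul_apply, smul_eq_mul]
          exact mul_nonneg (ht0 m j') (hnn _ _ _ _)) (mem_univ j)
    rw [← h2] at h3
    exact h3.trans (hB _ _)
  obtain ⟨a, ha, ψ, hψ, hψ2⟩ := (isCompact_Icc (a := (0 : Fin ℓ → ℝ))
    (b := fun j => B (c x j))).tendsto_subseq htB
  refine ⟨x, a, fun j => ha.1 j, ?_⟩
  funext i
  have h5 : Tendsto (fun m => k (φ (ψ m)) i) atTop (𝓝 (k0 i)) :=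
    (hk i).comp (hφ.tendsto_atTop.comp hψ.tendsto_atTop)
  have h6 : Tendsto (fun m => (∑ j, t (ψ m) j • R (φ (ψ m)) x j) i) atTop
      (𝓝 ((∑ j, a j • R0 x j) i)) := by
    simp only [Finset.sum_apply, Pi.smul_apply, smul_eq_mul]
    refine tendsto_finsetSum _ fun j _ => ?_
    exact ((tendsto_pi_nhds.1 hψ2 j)).mul
      ((hR x j i).comp (hφ.tendsto_atTop.comp hψ.tendsto_atTop))
  have h7 : (fun m => k (φ (ψ m)) i) = fun m => (∑ j, t (ψ m) j • R (φ (ψ m)) x j) i := by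
    funext m
    rw [← ht (ψ m)]
  rw [h7] at h5
  exact tendsto_nhds_unique h5 h6

/-- a vector of a subspace outside finitely many subspaces -/
theorem exists_avoid {E : Type} [AddCommGroup E] [Module ℝ E] {β : Type} [Finite β]
    (S : Submodule ℝ E) (W : β → Submodule ℝ E) (hW : ∀ x, ¬ S ≤ W x) :
    ∃ g ∈ S, ∀ x, g ∉ W x := by
  by_contra hcon
  push Not at hcon
  have h1 : (⋃ x, (((W x).comap S.subtype : Submodule ℝ S) : Set S)) = Set.univ := by
    apply Set.eq_univ_of_forall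
    rintro ⟨g, hg⟩
    obtain ⟨x, hx⟩ := hcon g hg
    exact Set.mem_iUnion.2 ⟨x, hx⟩
  obtain ⟨x, hx⟩ := Subspace.exists_eq_top_of_iUnion_eq_univ h1
  apply hW x
  intro g hg
  have : (⟨g, hg⟩ : S) ∈ (W x).comap S.subtype := by rw [hx]; trivial
  exact this

theorem avoid_line {E : Type} [AddCommGroup E] [Module ℝ E] {β : Type} [Finite β]
    (W : β → Submodule ℝ E) (a g : E) (hg : ∀ x, g ∉ W x) :
    ∀ᶠ δ : ℝ in 𝓝[>] 0, ∀ x, a + δ • g ∉ W x := by
  rw [Filter.eventually_all]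
  intro x
  have hsub : {δ : ℝ | a + δ • g ∈ W x}.Subsingleton := by
    intro δ hδ δ' hδ'
    by_contra hne
    apply hg x
    have h1 : (δ - δ') • g ∈ W x := by
      have := (W x).sub_mem hδ hδ'
      rwa [add_sub_add_left_eq_sub, ← sub_smul] at this
    exact ((W x).smul_mem_iff (sub_ne_zero.2 hne)).1 h1
  have hfin : ({δ : ℝ | a + δ • g ∈ W x} \ {0}).Finite := hsub.finite.subset Set.sdiff_subset
  have h2 : ({δ : ℝ | a + δ • g ∈ W x} \ {0})ᶜ ∈ 𝓝 (0 : ℝ) :=
    hfin.isClosed.isOpen_compl.mem_nhds (by simp)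
  filter_upwards [nhdsWithin_le_nhds h2, self_mem_nhdsWithin] with δ h3 h4 h5
  have h6 : (0 : ℝ) < δ := h4
  exact h3 ⟨h5, fun h7 => h6.ne' h7⟩

section Adet

variable {M : ℕ} {κ : Type} [Fintype κ]

theorem adet_li (w : κ → Fin M → ℝ) (h : adet w ≠ 0) : LinearIndependent ℝ w := by
  classical
  by_cases hc : Fintype.card κ = M
  · have e : κ ≃ Fin M := Fintype.equivFinOfCardEq hc
    rw [adet_eq w e] at h
    have h1 : Matrix.det (Matrix.of fun i => w (e.symm i)) ≠ 0 := fun h0 => h (by rw [h0, abs_zero])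
    have h2 := Matrix.linearIndependent_rows_of_det_ne_zero h1
    have h3 : w = (Matrix.of fun i => w (e.symm i)) ∘ e := by
      funext k
      change w k = w (e.symm (e k))
      rw [e.symm_apply_apply]
    rw [h3]
    exact h2.comp e e.injective
  · exact absurd (by simp [adet, hc]) h

theorem adet_eq_zero_of_not_li {ℓ : ℕ} {κ' : Type} [Fintype κ'] (d : Fin ℓ → Fin M → ℝ)
    (b : κ' → Fin M → ℝ) (h : ¬ LinearIndependent ℝ d) : adet (Sum.elim d b) = 0 := by
  by_contra h0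
  exact h ((adet_li _ h0).comp Sum.inl Sum.inl_injective)

/-- `adet` does not depend on the choice of the lifts `b` -/
theorem adet_dual_indep {ℓ : ℕ} {κ' : Type} [Fintype κ'] [DecidableEq κ']
    (d : Fin ℓ → Fin M → ℝ) (g b b' : κ' → Fin M → ℝ)
    (hg : ∀ j v, d j ⬝ᵥ g v = 0) (hb : ∀ u v, b u ⬝ᵥ g v = if u = v then 1 else 0)
    (hb' : ∀ u v, b' u ⬝ᵥ g v = if u = v then 1 else 0) (hc : ℓ + Fintype.card κ' = M) :
    adet (Sum.elim d b) = adet (Sum.elim d b') := by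
  classical
  by_cases hd : LinearIndependent ℝ d
  swap
  · rw [adet_eq_zero_of_not_li d b hd, adet_eq_zero_of_not_li d b' hd]
  have h1 : ∀ u, ∃ a : Fin ℓ → ℝ, b' u - b u = ∑ j, a j • d j := fun u =>
    Pool.Agent.helper74.DL.mem_span_of_orth d g b hd hb hg hc _ (fun v => by
      rw [sub_dotProduct, hb, hb', sub_self])
  choose a ha using h1
  have e : Fin ℓ ⊕ κ' ≃ Fin M := Fintype.equivFinOfCardEq (by simpa using hc)
  rw [Pool.Agent.helper74.DL.adet_eq' _ e, Pool.Agent.helper74.DL.adet_eq' _ e]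
  congr 1
  have h2 : (Matrix.of fun i j : Fin ℓ ⊕ κ' => (Sum.elim d b' : Fin ℓ ⊕ κ' → Fin M → ℝ) i (e j)) =
      Matrix.fromBlocks 1 0 (Matrix.of a) 1 *
        (Matrix.of fun i j : Fin ℓ ⊕ κ' => (Sum.elim d b : Fin ℓ ⊕ κ' → Fin M → ℝ) i (e j)) := by
    ext i j
    rw [Matrix.mul_apply, Fintype.sum_sum_type]
    rcases i with i | i
    · simp [Matrix.one_apply]
    · have h3 := congrFun (ha i) (e j)
      simp only [Pi.sub_apply, Finset.sum_apply, Pi.smul_apply, smul_eq_mul] at h3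
      simp only [Matrix.of_apply, Sum.elim_inr, Matrix.fromBlocks_apply₂₁, Sum.elim_inl,
        Matrix.fromBlocks_apply₂₂, Matrix.one_apply, ite_mul, one_mul, zero_mul,
        Finset.sum_ite_eq, mem_univ, if_true]
      linarith
  rw [h2, Matrix.det_mul, Matrix.det_fromBlocks_zero₁₂, Matrix.det_one, Matrix.det_one, one_mul,
    one_mul]

theorem adet_tendsto (w : ℕ → κ → Fin M → ℝ) (w0 : κ → Fin M → ℝ)
    (h : ∀ k i, Tendsto (fun m => w m k i) atTop (𝓝 (w0 k i))) :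
    Tendsto (fun m => adet (w m)) atTop (𝓝 (adet w0)) := by
  classical
  by_cases hc : Fintype.card κ = M
  · have e : κ ≃ Fin M := Fintype.equivFinOfCardEq hc
    simp only [adet_eq _ e]
    refine Tendsto.abs ?_
    have h1 : Continuous fun A : Matrix (Fin M) (Fin M) ℝ => A.det :=
      Continuous.matrix_det continuous_id
    refine (h1.tendsto _).comp ?_
    refine tendsto_pi_nhds.2 fun i => tendsto_pi_nhds.2 fun j => ?_
    exact h (e.symm i) j
  · simp only [adet, hc, dif_neg, not_false_eq_true]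
    exact tendsto_const_nhds

end Adet

theorem dot_tendsto {M : ℕ} (w z : ℕ → Fin M → ℝ) (w0 z0 : Fin M → ℝ)
    (hw : ∀ i, Tendsto (fun m => w m i) atTop (𝓝 (w0 i)))
    (hz : ∀ i, Tendsto (fun m => z m i) atTop (𝓝 (z0 i))) :
    Tendsto (fun m => w m ⬝ᵥ z m) atTop (𝓝 (w0 ⬝ᵥ z0)) := by
  simp only [dotProduct]
  exact tendsto_finsetSum _ fun i _ => (hw i).mul (hz i)

/-- converging bases: the coordinates converge -/
theorem coord_tendsto {M : ℕ} {κ : Type} [Fintype κ] [DecidableEq κ] (e : κ ≃ Fin M)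
    (B : ℕ → κ → Fin M → ℝ) (B0 : κ → Fin M → ℝ) (hB : ∀ k i, Tendsto (fun m => B m k i) atTop
      (𝓝 (B0 k i))) (hd : adet B0 ≠ 0) (p : ℕ → Fin M → ℝ) (c0 : κ → ℝ)
    (hp : ∀ i, Tendsto (fun m => p m i) atTop (𝓝 ((∑ k, c0 k • B0 k) i))) :
    ∃ c : ℕ → κ → ℝ, (∀ k, Tendsto (fun m => c m k) atTop (𝓝 (c0 k))) ∧
      ∀ᶠ m in atTop, p m = ∑ k, c m k • B m k := by
  set A : ℕ → Matrix κ κ ℝ := fun m => Matrix.of fun i j => B m i (e j) with hA
  set A0 : Matrix κ κ ℝ := Matrix.of fun i j => B0 i (e j) with hA0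
  have hdet : A0.det ≠ 0 := by
    intro h0
    apply hd
    rw [Pool.Agent.helper74.DL.adet_eq' _ e, ← hA0, h0, abs_zero]
  have hAt : Tendsto A atTop (𝓝 A0) :=
    tendsto_pi_nhds.2 fun i => tendsto_pi_nhds.2 fun j => hB i (e j)
  have hdt : Tendsto (fun m => (A m).det) atTop (𝓝 A0.det) :=
    ((Continuous.matrix_det continuous_id).tendsto A0).comp hAt
  have hadj : Tendsto (fun m => (A m).adjugate) atTop (𝓝 A0.adjugate) :=
    ((Continuous.matrix_adjugate continuous_id).tendsto A0).comp hAt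
  have hinv : Tendsto (fun m => (A m)⁻¹) atTop (𝓝 A0⁻¹) := by
    simp only [Matrix.inv_def, Ring.inverse_eq_inv']
    exact (hdt.inv₀ hdet).smul hadj
  have hP : Tendsto (fun m => fun k : κ => p m (e k)) atTop
      (𝓝 (Matrix.vecMul c0 A0)) := by
    refine tendsto_pi_nhds.2 fun k => ?_
    have h1 := hp (e k)
    have h2 : (∑ k, c0 k • B0 k) (e k) = Matrix.vecMul c0 A0 k := by
      simp [Matrix.vecMul, dotProduct, hA0]
    rw [h2] at h1
    exact h1
  refine ⟨fun m => Matrix.vecMul (fun k : κ => p m (e k)) (A m)⁻¹, ?_, ?_⟩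
  · have hcont : Continuous fun z : (κ → ℝ) × Matrix κ κ ℝ => Matrix.vecMul z.1 z.2 :=
      Continuous.matrix_vecMul continuous_fst continuous_snd
    have h1 := (hcont.tendsto (Matrix.vecMul c0 A0, A0⁻¹)).comp (hP.prodMk_nhds hinv)
    have h2 : Matrix.vecMul (Matrix.vecMul c0 A0) A0⁻¹ = c0 := by
      rw [Matrix.vecMul_vecMul, Matrix.mul_nonsing_inv _ (isUnit_iff_ne_zero.2 hdet),
        Matrix.vecMul_one]
    simp only at h1
    rw [h2] at h1
    exact fun k => tendsto_pi_nhds.1 h1 k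
  · have h3 : ∀ᶠ m in atTop, (A m).det ≠ 0 := hdt.eventually_ne hdet
    filter_upwards [h3] with m hm
    have h4 : Matrix.vecMul (Matrix.vecMul (fun k : κ => p m (e k)) (A m)⁻¹) (A m) =
        fun k : κ => p m (e k) := by
      rw [Matrix.vecMul_vecMul, Matrix.nonsing_inv_mul _ (isUnit_iff_ne_zero.2 hm),
        Matrix.vecMul_one]
    funext i
    have h5 := congrFun h4 (e.symm i)
    simp only [Equiv.apply_symm_apply] at h5
    rw [← h5]
    simp [Matrix.vecMul, dotProduct, hA]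

end Pool.Agent.helper51.DL
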