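import Mathlib
import Pool.Agent.helper61.DL.Defs2
import Pool.Agent.helper74.DL.P

set_option autoImplicit false

/-! # Module P, symbolic form of the starring decomposition (adapted from helper74) -/

namespace Pool.Agent.helper51.DL

open Finset Pool.Agent.helper61.DL

section Sym

variable {n : ℕ} {ι : Type} [Fintype ι] [DecidableEq ι]

theorem toPoly {V : ι → Fin n → ℝ} {h : ι → ℝ} {𝒱 : Finset (Finset ι)}
    {kk : Finset ι → Fin n → ℝ} {dd : Finset ι → ι → Fin n → ℝ} (hP : Poly V h 𝒱 kk dd) :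
    Pool.Agent.helper74.DL.Poly V h 𝒱 kk dd :=
  ⟨hP.card, hP.kk_le, hP.kk_eq, hP.dual, hP.act, hP.V_nonneg, hP.conv, hP.h_pos⟩

theorem step' {V : ι → Fin n → ℝ} {h : ι → ℝ} {𝒱 : Finset (Finset ι)}
    {kk : Finset ι → Fin n → ℝ} {dd : Finset ι → ι → Fin n → ℝ}
    (hP : Pool.Agent.helper74.DL.Poly V h 𝒱 kk dd) (F : Finset ι) (hF : F ∈ fcs 𝒱) {ℓ : ℕ}
    (hℓ : 1 ≤ ℓ) (hc : ℓ + 1 + F.card = n + 1) (p : Fin (n + 1) → ℝ)
    (hp : Pool.Agent.helper74.DL.InC V h F p) (hpn : ∀ i, 0 ≤ p i)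
    (hpne : p ≠ 0) (hcase : p 0 = 0 ∨ (p 0 = 1 ∧ ∀ i, ∃ v ∈ F, V v i ≠ 0))
    (P : ι → Prop) (hPP : ∀ v, P v ↔ (0 < p ⬝ᵥ hv (h v) (V v) ∧ insert v F ∈ fcs 𝒱))
    (β : {v // P v} → Type) [∀ v, Fintype (β v)] [hfin : Fintype {v // P v}]
    (D : ∀ v, β v → Fin ℓ → Fin (n + 1) → ℝ)
    (hD : ∀ v : {v // P v}, Pool.Agent.helper74.DL.IsDec V h 𝒱 kk dd (insert v.1 F) (D v)) :
    Pool.Agent.helper74.DL.IsDec V h 𝒱 kk dd F (fun x : Σ v, β v =>
      (Fin.cons p (D x.1 x.2) : Fin (ℓ + 1) → Fin (n + 1) → ℝ)) := by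
  obtain rfl : P = fun v => (0 < p ⬝ᵥ hv (h v) (V v) ∧ insert v F ∈ fcs 𝒱) :=
    funext fun v => propext (hPP v)
  exact Pool.Agent.helper74.DL.step hP F hF hℓ hc p hp hpn hpne hcase β D hD

theorem exists_dec_sym (V : ι → Fin n → ℝ) (𝒱 : Finset (Finset ι)) :
    ∀ (ℓ : ℕ) (F : Finset ι), F ∈ fcs 𝒱 → 1 ≤ ℓ → ℓ + F.card = n + 1 →
    ∃ (β : Type) (_ : Fintype β) (D : β → Fin ℓ → Fin n ⊕ Finset ι),
      ∀ (h : ι → ℝ) (kk : Finset ι → Fin n → ℝ) (dd : Finset ι → ι → Fin n → ℝ),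
      Pool.Agent.helper74.DL.Poly V h 𝒱 kk dd →
      Pool.Agent.helper74.DL.IsDec V h 𝒱 kk dd F (fun x j => ray kk (D x j)) := by
  classical
  intro ℓ
  induction ℓ with
  | zero => intro F _ h0; omega
  | succ ℓ ih =>
    intro F hF _ hc
    obtain ⟨Δ, hΔ, hFΔ⟩ := Pool.Agent.helper74.DL.mem_fcs.1 hF
    rcases Nat.eq_zero_or_pos ℓ with h0 | hℓ
    · subst h0
      refine ⟨Unit, inferInstance, fun _ _ => Sum.inr Δ, fun h kk dd hP => ?_⟩
      have hFeq : F = Δ := Finset.eq_of_subset_of_card_le hFΔ (by rw [hP.card Δ hΔ]; omega)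
      subst hFeq
      exact Pool.Agent.helper74.DL.base hP F hΔ
    · -- the apex
      obtain ⟨q, P, hPF, hq⟩ : ∃ (q : Fin n ⊕ Finset ι) (P : ι → Prop),
          (∀ v, P v → v ∉ F ∧ insert v F ∈ fcs 𝒱) ∧
          ∀ (h : ι → ℝ) (kk : Finset ι → Fin n → ℝ) (dd : Finset ι → ι → Fin n → ℝ),
          Pool.Agent.helper74.DL.Poly V h 𝒱 kk dd →
          Pool.Agent.helper74.DL.InC V h F (ray kk q) ∧ (∀ i, 0 ≤ ray kk q i) ∧
          ray kk q ≠ 0 ∧ (ray kk q 0 = 0 ∨ (ray kk q 0 = 1 ∧ ∀ i, ∃ v ∈ F, V v i ≠ 0)) ∧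
          ∀ v, P v ↔ (0 < ray kk q ⬝ᵥ hv (h v) (V v) ∧ insert v F ∈ fcs 𝒱) := by
        by_cases hcov : ∀ i, ∃ v ∈ F, V v i ≠ 0
        · refine ⟨Sum.inr Δ, fun v => v ∉ Δ ∧ insert v F ∈ fcs 𝒱,
            fun v hv => ⟨fun h => hv.1 (hFΔ h), hv.2⟩, fun h kk dd hP => ?_⟩
          refine ⟨Pool.Agent.helper74.DL.vertex_inC hP Δ hΔ F hFΔ, fun i => ?_, fun h0 => ?_,
            Or.inr ⟨by simp [ray], hcov⟩, fun v => ?_⟩
          · induction i using Fin.cases with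
            | zero => simp [ray]
            | succ i => simpa [ray] using (Pool.Agent.helper74.DL.pt_pos hP _ (hP.kk_le Δ hΔ) i).le
          · have := congrFun h0 0
            simp [ray] at this
          · refine and_congr_left fun _ => ?_
            simp only [ray, Sum.elim_inr]
            rw [Pool.Agent.helper74.DL.vertex_hv hP, sub_pos, (hP.kk_eq Δ hΔ v)]
            constructor
            · intro h1
              exact lt_of_le_of_ne (hP.kk_le Δ hΔ v) (Ne.symm h1)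
            · intro h1 h2
              exact h1.ne' h2
        · push Not at hcov
          obtain ⟨i, hi⟩ := hcov
          refine ⟨Sum.inl i, fun v => V v i ≠ 0 ∧ insert v F ∈ fcs 𝒱,
            fun v hv => ⟨fun h => hv.1 (hi v h), hv.2⟩, fun h kk dd hP => ?_⟩
          have hd : ∀ u, (Fin.cons 0 (Pi.single i 1) : Fin (n + 1) → ℝ) ⬝ᵥ hv (h u) (V u) =
              V u i := by
            intro u
            rw [Pool.Agent.helper74.DL.cons_hv]
            simp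
          refine ⟨⟨fun u => ?_, fun v hv => ?_⟩, fun j => ?_, fun h0 => ?_, Or.inl (by simp [ray]),
            fun v => ?_⟩
          · simp only [ray, Sum.elim_inl]
            rw [hd]
            exact hP.V_nonneg u i
          · simp only [ray, Sum.elim_inl]
            rw [hd]
            exact hi v hv
          · simp only [ray, Sum.elim_inl]
            induction j using Fin.cases with
            | zero => simp
            | succ j =>
              rw [Fin.cons_succ, Pi.single_apply]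
              split_ifs <;> norm_num
          · have := congrFun h0 i.succ
            simp [ray] at this
          · refine and_congr_left fun _ => ?_
            simp only [ray, Sum.elim_inl]
            rw [hd]
            constructor
            · intro h1
              exact lt_of_le_of_ne (hP.V_nonneg v i) (Ne.symm h1)
            · intro h1
              exact h1.ne'
      have hrec : ∀ v : {v // P v},
          ∃ (β : Type) (_ : Fintype β) (D : β → Fin ℓ → Fin n ⊕ Finset ι),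
            ∀ (h : ι → ℝ) (kk : Finset ι → Fin n → ℝ) (dd : Finset ι → ι → Fin n → ℝ),
            Pool.Agent.helper74.DL.Poly V h 𝒱 kk dd →
            Pool.Agent.helper74.DL.IsDec V h 𝒱 kk dd (insert v.1 F)
              (fun x j => ray kk (D x j)) := by
        intro v
        apply ih _ (hPF v.1 v.2).2 hℓ
        rw [Finset.card_insert_of_notMem (hPF v.1 v.2).1]
        omega
      choose β hβ D hD using hrec
      refine ⟨Σ v, β v, inferInstance, fun x => Fin.cons q (D x.1 x.2), fun h kk dd hP => ?_⟩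
      obtain ⟨h1, h2, h3, h4, h5⟩ := hq h kk dd hP
      have key := step' hP F hF hℓ (by omega) (ray kk q) h1 h2 h3 h4 P h5 β
        (fun v x j => ray kk (D v x j)) (fun v => hD v h kk dd hP)
      convert key using 3 with x j
      induction j using Fin.cases with
      | zero => rfl
      | succ j => rfl

end Sym

theorem star_decomp {n : ℕ} {ι : Type} [Fintype ι] [DecidableEq ι] (V : ι → Fin n → ℝ)
    (𝒱 : Finset (Finset ι)) : ∀ (ℓ : ℕ) (F : Finset ι), F ∈ fcs 𝒱 → 1 ≤ ℓ → ℓ + F.card = n + 1 →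
    ∃ (β : Type) (_ : Fintype β) (D : β → Fin ℓ → Fin n ⊕ Finset ι),
      ∀ (h : ι → ℝ) (kk : Finset ι → Fin n → ℝ) (dd : Finset ι → ι → Fin n → ℝ),
      Poly V h 𝒱 kk dd →
      (∀ x j, (∀ u, 0 ≤ ray kk (D x j) ⬝ᵥ hv (h u) (V u)) ∧
        (∀ v ∈ F, ray kk (D x j) ⬝ᵥ hv (h v) (V v) = 0) ∧
        (∀ i, 0 ≤ ray kk (D x j) i) ∧ ray kk (D x j) ≠ 0) ∧
      (∀ x, LinearIndependent ℝ fun j => ray kk (D x j)) ∧
      (∀ k : Fin (n + 1) → ℝ, (∀ u, 0 ≤ k ⬝ᵥ hv (h u) (V u)) →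
        (∀ v ∈ F, k ⬝ᵥ hv (h v) (V v) = 0) → 0 < k 0 →
        ∃ x, ∃ t : Fin ℓ → ℝ, (∀ j, 0 ≤ t j) ∧ k = ∑ j, t j • ray kk (D x j)) ∧
      (∀ x x', x ≠ x' → ∀ t t' : Fin ℓ → ℝ, (∀ j, 0 < t j) → (∀ j, 0 < t' j) →
        ∑ j, t j • ray kk (D x j) ≠ ∑ j, t' j • ray kk (D x' j)) ∧
      (∀ (s : ℝ) (ξ : Fin n → ℝ), 0 < s → (∀ i, 0 < ξ i) →
        (∀ Δ ∈ 𝒱, ∀ v ∈ Δ, dd Δ v ⬝ᵥ ξ ≠ 0) →
        (∀ G ∈ fcs 𝒱, G.card < n → (∀ i, ∃ v ∈ G, V v i ≠ 0) →
          ∑ Δ ∈ 𝒱 with G ⊆ Δ, 1 / (adet (fun v : {v // v ∈ Δ} => V v) *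
            ∏ v ∈ Δ \ G, dd Δ v ⬝ᵥ ξ) = 0) →
        ∀ b : ι → Fin (n + 1) → ℝ,
          (∀ u ∈ F, ∀ v ∈ F, b u ⬝ᵥ hv (h v) (V v) = if u = v then 1 else 0) →
          ∑ x, adet (Sum.elim (fun j => ray kk (D x j)) (fun v : {v // v ∈ F} => b v)) /
            ∏ j, (ray kk (D x j) ⬝ᵥ (Fin.cons s ξ : Fin (n + 1) → ℝ)) = RS V 𝒱 kk dd s ξ F) := by
  intro ℓ F hF hℓ hc
  obtain ⟨β, hβ, D, hD⟩ := exists_dec_sym V 𝒱 ℓ F hF hℓ hc
  refine ⟨β, hβ, D, fun h kk dd hP => ?_⟩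
  have hd := hD h kk dd (toPoly hP)
  exact ⟨fun x j => ⟨(hd.mem x j).1, (hd.mem x j).2, hd.pos x j, hd.ne x j⟩, hd.li,
    fun k h1 h2 h3 => hd.cover k ⟨h1, h2⟩ h3, hd.disj, hd.val⟩

end Pool.Agent.helper51.DL
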