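import Mathlib
import Pool.Agent.helper61.DL.Defs4
import Pool.Agent.helper51.DL.P3
import Pool.Agent.helper51.DL.Lim1

set_option autoImplicit false

/-! # Module LIM: the limit of the decompositions of `star_decomp` for heights `→ 1` -/

namespace Pool.Agent.helper51.DL

open Finset Filter Topology Pool.Agent.helper61.DL

/-- common hypotheses of the two theorems of this module -/
structure LimHyp {n : ℕ} {ι : Type} [Fintype ι] [DecidableEq ι] (V : ι → Fin n → ℝ) (om : ι → ℝ)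
    (𝒱 : Finset (Finset ι)) (dd : Finset ι → ι → Fin n → ℝ) (η : ℕ → ℝ) (F : Finset ι)
    (s : ℝ) (ξ : Fin n → ℝ) : Prop where
  pos : ∀ m, 0 < η m
  lim : Tendsto η atTop (𝓝 0)
  poly : ∀ m, Poly V (fun i => 1 - η m * om i) 𝒱
    (fun Δ j => ∑ v ∈ Δ, (1 - η m * om v) * dd Δ v j) dd
  one_le : ∀ Δ ∈ 𝒱, ∀ i, 1 ≤ (fun j => ∑ v ∈ Δ, dd Δ v j) ⬝ᵥ V i
  hF : F ∈ fcs 𝒱
  s_pos : 0 < s
  xi_pos : ∀ i, 0 < ξ i
  gen : ∀ Δ ∈ 𝒱, ∀ v ∈ Δ, dd Δ v ⬝ᵥ ξ ≠ 0
  hX : ∀ G ∈ fcs 𝒱, G.card < n → (∀ i, ∃ v ∈ G, V v i ≠ 0) →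
    ∑ Δ ∈ 𝒱 with G ⊆ Δ, 1 / (adet (fun v : {v // v ∈ Δ} => V v) *
      ∏ v ∈ Δ \ G, dd Δ v ⬝ᵥ ξ) = 0

section Lim

variable {n : ℕ} {ι : Type} [Fintype ι] [DecidableEq ι]

/-- vertices at level `m` -/
noncomputable def kkm (dd : Finset ι → ι → Fin n → ℝ) (om : ι → ℝ) (t : ℝ) :
    Finset ι → Fin n → ℝ := fun Δ j => ∑ v ∈ Δ, (1 - t * om v) * dd Δ v j

/-- limit vertices -/
noncomputable def kk0 (dd : Finset ι → ι → Fin n → ℝ) : Finset ι → Fin n → ℝ :=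
  fun Δ j => ∑ v ∈ Δ, dd Δ v j

theorem ray_tendsto (dd : Finset ι → ι → Fin n → ℝ) (om : ι → ℝ) (η : ℕ → ℝ)
    (hη : Tendsto η atTop (𝓝 0)) (q : Fin n ⊕ Finset ι) (i : Fin (n + 1)) :
    Tendsto (fun m => ray (kkm dd om (η m)) q i) atTop (𝓝 (ray (kk0 dd) q i)) := by
  rcases q with q | Δ
  · simp only [ray, Sum.elim_inl]
    exact tendsto_const_nhds
  · simp only [ray, Sum.elim_inr]
    induction i using Fin.cases with
    | zero => simp only [Fin.cons_zero]; exact tendsto_const_nhds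
    | succ i =>
      simp only [Fin.cons_succ, kkm, kk0]
      refine tendsto_finsetSum _ fun v _ => ?_
      have h1 : Tendsto (fun m => (1 - η m * om v) * dd Δ v i) atTop
          (𝓝 ((1 - 0 * om v) * dd Δ v i)) :=
        ((tendsto_const_nhds.sub (hη.mul_const _)).mul_const _)
      simpa using h1

theorem hv_tendsto (V : ι → Fin n → ℝ) (om : ι → ℝ) (η : ℕ → ℝ) (hη : Tendsto η atTop (𝓝 0))
    (u : ι) (i : Fin (n + 1)) :
    Tendsto (fun m => hv (1 - η m * om u) (V u) i) atTop (𝓝 (hv 1 (V u) i)) := by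
  simp only [hv]
  induction i using Fin.cases with
  | zero =>
    simp only [Fin.cons_zero]
    have h1 : Tendsto (fun m => -(1 - η m * om u)) atTop (𝓝 (-(1 - 0 * om u))) :=
      (tendsto_const_nhds.sub (hη.mul_const _)).neg
    simpa using h1
  | succ i => simp only [Fin.cons_succ]; exact tendsto_const_nhds

theorem ray_one (kk : Finset ι → Fin n → ℝ) (q : Fin n ⊕ Finset ι) :
    ray kk q (Sum.elim (fun i => Fin.succ i) (fun _ => 0) q) = 1 := by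
  rcases q with q | Δ <;> simp [ray]

variable {V : ι → Fin n → ℝ} {om : ι → ℝ}
    {𝒱 : Finset (Finset ι)} {dd : Finset ι → ι → Fin n → ℝ} {η : ℕ → ℝ} {F : Finset ι}
    {s : ℝ} {ξ : Fin n → ℝ}

theorem ray_dot_pos (hs : 0 < s) (hξ : ∀ i, 0 < ξ i) (kk : Finset ι → Fin n → ℝ)
    (q : Fin n ⊕ Finset ι) (hq : ∀ i, 0 ≤ ray kk q i) :
    0 < ray kk q ⬝ᵥ (Fin.cons s ξ : Fin (n + 1) → ℝ) := by
  have h1 : ∀ i, 0 < (Fin.cons s ξ : Fin (n + 1) → ℝ) i := by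
    intro i
    induction i using Fin.cases with
    | zero => simpa using hs
    | succ i => simpa using hξ i
  rw [dotProduct]
  refine Finset.sum_pos' (fun i _ => mul_nonneg (hq i) (h1 i).le)
    ⟨_, mem_univ (Sum.elim (fun i => Fin.succ i) (fun _ => 0) q), ?_⟩
  rw [ray_one, one_mul]
  exact h1 _

/-- the data of the limit -/
structure Data (V : ι → Fin n → ℝ) (om : ι → ℝ) (𝒱 : Finset (Finset ι))
    (dd : Finset ι → ι → Fin n → ℝ) (η : ℕ → ℝ) (F : Finset ι) (s : ℝ) (ξ : Fin n → ℝ)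
    (ℓ : ℕ) (β : Type) [Fintype β] (D : β → Fin ℓ → Fin n ⊕ Finset ι) : Prop where
  mem : ∀ m x j u, 0 ≤ ray (kkm dd om (η m)) (D x j) ⬝ᵥ hv (1 - η m * om u) (V u)
  memF : ∀ m x j, ∀ v ∈ F, ray (kkm dd om (η m)) (D x j) ⬝ᵥ hv (1 - η m * om v) (V v) = 0
  nonneg : ∀ m x j i, 0 ≤ ray (kkm dd om (η m)) (D x j) i
  li : ∀ m x, LinearIndependent ℝ fun j => ray (kkm dd om (η m)) (D x j)
  cover : ∀ m (k : Fin (n + 1) → ℝ), (∀ u, 0 ≤ k ⬝ᵥ hv (1 - η m * om u) (V u)) →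
        (∀ v ∈ F, k ⬝ᵥ hv (1 - η m * om v) (V v) = 0) → 0 < k 0 →
        ∃ x, ∃ t : Fin ℓ → ℝ, (∀ j, 0 ≤ t j) ∧ k = ∑ j, t j • ray (kkm dd om (η m)) (D x j)
  disj : ∀ m x x', x ≠ x' → ∀ t t' : Fin ℓ → ℝ, (∀ j, 0 < t j) → (∀ j, 0 < t' j) →
        ∑ j, t j • ray (kkm dd om (η m)) (D x j) ≠ ∑ j, t' j • ray (kkm dd om (η m)) (D x' j)
  val : ∀ m, ∀ b : ι → Fin (n + 1) → ℝ,
          (∀ u ∈ F, ∀ v ∈ F, b u ⬝ᵥ hv (1 - η m * om v) (V v) = if u = v then 1 else 0) →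
          ∑ x, adet (Sum.elim (fun j => ray (kkm dd om (η m)) (D x j))
            (fun v : {v // v ∈ F} => b v)) /
            ∏ j, (ray (kkm dd om (η m)) (D x j) ⬝ᵥ (Fin.cons s ξ : Fin (n + 1) → ℝ)) =
              RS V 𝒱 (kkm dd om (η m)) dd s ξ F

theorem exists_data (h : LimHyp V om 𝒱 dd η F s ξ) (ℓ : ℕ) (hℓ1 : 1 ≤ ℓ)
    (hℓ : ℓ + F.card = n + 1) : ∃ (β : Type) (_ : Fintype β) (D : β → Fin ℓ → Fin n ⊕ Finset ι),
      Data V om 𝒱 dd η F s ξ ℓ β D := by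
  obtain ⟨β, hβ, D, hD⟩ := star_decomp V 𝒱 ℓ F h.hF hℓ1 hℓ
  refine ⟨β, hβ, D, ?_⟩
  have hD' := fun m => hD _ _ _ (h.poly m)
  exact ⟨fun m x j u => ((hD' m).1 x j).1 u, fun m x j v hv => ((hD' m).1 x j).2.1 v hv,
    fun m x j i => ((hD' m).1 x j).2.2.1 i, fun m x => (hD' m).2.1 x, fun m => (hD' m).2.2.1,
    fun m => (hD' m).2.2.2.1, fun m => (hD' m).2.2.2.2 s ξ h.s_pos h.xi_pos h.gen h.hX⟩

variable {ℓ : ℕ} {β : Type} [Fintype β] {D : β → Fin ℓ → Fin n ⊕ Finset ι}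

theorem Data.mem0 (hD : Data V om 𝒱 dd η F s ξ ℓ β D) (hη : Tendsto η atTop (𝓝 0)) (x : β)
    (j : Fin ℓ) (u : ι) : 0 ≤ ray (kk0 dd) (D x j) ⬝ᵥ hv 1 (V u) :=
  ge_of_tendsto' (dot_tendsto _ _ _ _ (ray_tendsto dd om η hη (D x j)) (hv_tendsto V om η hη u))
    fun m => hD.mem m x j u

theorem Data.memF0 (hD : Data V om 𝒱 dd η F s ξ ℓ β D) (hη : Tendsto η atTop (𝓝 0)) (x : β)
    (j : Fin ℓ) (u : ι) (hu : u ∈ F) : ray (kk0 dd) (D x j) ⬝ᵥ hv 1 (V u) = 0 := by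
  have h1 := dot_tendsto _ _ _ _ (ray_tendsto dd om η hη (D x j)) (hv_tendsto V om η hη u)
  have h2 : (fun m => ray (kkm dd om (η m)) (D x j) ⬝ᵥ hv (1 - η m * om u) (V u)) =
      fun _ => (0 : ℝ) := funext fun m => hD.memF m x j u hu
  rw [h2] at h1
  exact tendsto_nhds_unique h1 tendsto_const_nhds

theorem Data.nonneg0 (hD : Data V om 𝒱 dd η F s ξ ℓ β D) (hη : Tendsto η atTop (𝓝 0)) (x : β)
    (j : Fin ℓ) (i : Fin (n + 1)) : 0 ≤ ray (kk0 dd) (D x j) i :=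
  ge_of_tendsto' (ray_tendsto dd om η hη (D x j) i) fun m => hD.nonneg m x j i

/-- the standard lifts -/
theorem lift_dual (h : LimHyp V om 𝒱 dd η F s ξ) {Δ₀ : Finset ι} (hΔ₀ : Δ₀ ∈ 𝒱) (hF : F ⊆ Δ₀)
    (a : ι → ℝ) (u v : {v // v ∈ F}) :
    (Fin.cons 0 (dd Δ₀ u) : Fin (n + 1) → ℝ) ⬝ᵥ hv (a v) (V v) = if u = v then 1 else 0 := by
  rw [Pool.Agent.helper74.DL.cons_hv, zero_mul, sub_zero,
    (h.poly 0).dual Δ₀ hΔ₀ u (hF u.2) v (hF v.2)]
  simp only [Subtype.ext_iff]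

theorem kk0_pos (h : LimHyp V om 𝒱 dd η F s ξ) {Δ : Finset ι} (hΔ : Δ ∈ 𝒱) (j : Fin n) :
    0 < kk0 dd Δ j := by
  obtain ⟨i, hi, h0⟩ := (h.poly 0).conv j
  have h1 := h.one_le Δ hΔ i
  have h2 : (fun j => ∑ v ∈ Δ, dd Δ v j) ⬝ᵥ V i = kk0 dd Δ j * V i j := by
    rw [dotProduct, Finset.sum_eq_single j]
    · rfl
    · intro b _ hb
      rw [h0 b hb, mul_zero]
    · exact fun hj => absurd (mem_univ j) hj
  rw [h2] at h1
  by_contra hneg
  push Not at hneg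
  nlinarith [mul_nonpos_of_nonpos_of_nonneg hneg hi.le]

theorem RS_tendsto (h : LimHyp V om 𝒱 dd η F s ξ) :
    Tendsto (fun m => RS V 𝒱 (kkm dd om (η m)) dd s ξ F) atTop
      (𝓝 (RS V 𝒱 (kk0 dd) dd s ξ F)) := by
  simp only [RS]
  refine tendsto_finsetSum _ fun Δ hΔ => ?_
  have hΔ' := (mem_filter.1 hΔ).1
  have hform : ∀ kk : Finset ι → Fin n → ℝ, 1 / (adet (fun v : {v // v ∈ Δ} => V v) *
      (s + kk Δ ⬝ᵥ ξ) * ∏ v ∈ Δ \ F, dd Δ v ⬝ᵥ ξ) =
      (1 / (adet (fun v : {v // v ∈ Δ} => V v) * ∏ v ∈ Δ \ F, dd Δ v ⬝ᵥ ξ)) *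
        (s + kk Δ ⬝ᵥ ξ)⁻¹ := by
    intro kk
    rw [one_div, one_div, mul_inv, mul_inv, mul_inv]
    ring
  simp only [hform]
  refine Tendsto.mul tendsto_const_nhds (Tendsto.inv₀ (tendsto_const_nhds.add ?_) ?_)
  · refine dot_tendsto _ _ _ _ (fun i => ?_) (fun i => tendsto_const_nhds)
    have := ray_tendsto dd om η h.lim (Sum.inr Δ) (Fin.succ i)
    simpa [ray] using this
  · have h1 : 0 ≤ kk0 dd Δ ⬝ᵥ ξ := by
      rw [dotProduct]
      exact Finset.sum_nonneg fun i _ => mul_nonneg (kk0_pos h hΔ' i).le (h.xi_pos i).le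
    have := h.s_pos
    positivity

/-- the value of the limit, standard lifts -/
theorem val0 (h : LimHyp V om 𝒱 dd η F s ξ) (hD : Data V om 𝒱 dd η F s ξ ℓ β D)
    {Δ₀ : Finset ι} (hΔ₀ : Δ₀ ∈ 𝒱) (hF : F ⊆ Δ₀) :
    ∑ x, adet (Sum.elim (fun j => ray (kk0 dd) (D x j))
      (fun v : {v // v ∈ F} => (Fin.cons 0 (dd Δ₀ v) : Fin (n + 1) → ℝ))) /
      ∏ j, (ray (kk0 dd) (D x j) ⬝ᵥ (Fin.cons s ξ : Fin (n + 1) → ℝ)) =
        RS V 𝒱 (kk0 dd) dd s ξ F := by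
  have h1 := RS_tendsto h
  have h2 : (fun m => RS V 𝒱 (kkm dd om (η m)) dd s ξ F) = fun m =>
      ∑ x, adet (Sum.elim (fun j => ray (kkm dd om (η m)) (D x j))
        (fun v : {v // v ∈ F} => (Fin.cons 0 (dd Δ₀ v) : Fin (n + 1) → ℝ))) /
        ∏ j, (ray (kkm dd om (η m)) (D x j) ⬝ᵥ (Fin.cons s ξ : Fin (n + 1) → ℝ)) := by
    funext m
    rw [← hD.val m (fun v => Fin.cons 0 (dd Δ₀ v)) ?_]
    intro u hu v hv
    have := lift_dual h hΔ₀ hF (fun v => 1 - η m * om v) ⟨u, hu⟩ ⟨v, hv⟩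
    simpa using this
  rw [h2] at h1
  refine tendsto_nhds_unique ?_ h1
  refine tendsto_finsetSum _ fun x _ => ?_
  refine Tendsto.div ?_ ?_ ?_
  · refine adet_tendsto _ _ fun k i => ?_
    rcases k with k | k
    · simp only [Sum.elim_inl]
      exact ray_tendsto dd om η h.lim _ i
    · simp only [Sum.elim_inr]
      exact tendsto_const_nhds
  · refine tendsto_finsetProd _ fun j _ => ?_
    exact dot_tendsto _ _ _ _ (ray_tendsto dd om η h.lim _) (fun i => tendsto_const_nhds)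
  · exact Finset.prod_ne_zero_iff.2 fun j _ =>
      (ray_dot_pos h.s_pos h.xi_pos _ _ (hD.nonneg0 h.lim x j)).ne'

end Lim

/-- `F` of smaller dimension than the smallest face containing it: all limit cones degenerate -/
theorem lim_zero {n : ℕ} {ι : Type} [Fintype ι] [DecidableEq ι] {V : ι → Fin n → ℝ} {om : ι → ℝ}
    {𝒱 : Finset (Finset ι)} {dd : Finset ι → ι → Fin n → ℝ} {η : ℕ → ℝ} {F : Finset ι}
    {s : ℝ} {ξ : Fin n → ℝ} (h : LimHyp V om 𝒱 dd η F s ξ) (u : ι) (hu : u ∈ tau V F)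
    (hu' : hv 1 (V u) ∉ Submodule.span ℝ ((fun v => hv 1 (V v)) '' (F : Set ι))) :
    RS V 𝒱 (fun Δ j => ∑ v ∈ Δ, dd Δ v j) dd s ξ F = 0 := by
  classical
  obtain ⟨Δ₀, hΔ₀, hFΔ⟩ := Pool.Agent.helper74.DL.mem_fcs.1 h.hF
  have hcard : F.card ≤ n := by
    rw [← (h.poly 0).card Δ₀ hΔ₀]
    exact Finset.card_le_card hFΔ
  obtain ⟨β, _, D, hD⟩ := exists_data h (n + 1 - F.card) (by omega) (by omega)
  change RS V 𝒱 (kk0 dd) dd s ξ F = 0
  rw [← val0 h hD hΔ₀ hFΔ]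
  refine Finset.sum_eq_zero fun x _ => ?_
  have hray : ∀ j, ray (kk0 dd) (D x j) ⬝ᵥ hv 1 (V u) = 0 := by
    intro j
    have hm := hD.mem0 h.lim x j
    have hmF := hD.memF0 h.lim x j
    simp only [tau, mem_filter, mem_univ, true_and] at hu
    have h0 := hu (kk0 dd Δ₀) (h.one_le Δ₀ hΔ₀) (fun v hv => by
      have h1 := (h.poly 0).dual Δ₀ hΔ₀
      have h2 : kk0 dd Δ₀ = ∑ w ∈ Δ₀, dd Δ₀ w := by
        funext j
        simp [kk0, Finset.sum_apply]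
      rw [h2, sum_dotProduct, Finset.sum_eq_single v]
      · rw [h1 v (hFΔ hv) v (hFΔ hv), if_pos rfl]
      · intro w hw hwv
        rw [h1 w hw v (hFΔ hv), if_neg hwv]
      · intro hv'
        exact absurd (hFΔ hv) hv')
    rcases hq : D x j with q | Δ
    · rw [hq] at hm hmF
      have hd : ∀ w, ray (kk0 dd) (Sum.inl q) ⬝ᵥ hv 1 (V w) = V w q := by
        intro w
        simp only [ray, Sum.elim_inl]
        rw [Pool.Agent.helper74.DL.cons_hv]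
        simp
      rw [hd]
      have h2 := hu (kk0 dd Δ₀ + Pi.single q 1) (fun i => by
        rw [add_dotProduct]
        have h3 := h.one_le Δ₀ hΔ₀ i
        have h4 : 0 ≤ (Pi.single q 1 : Fin n → ℝ) ⬝ᵥ V i := by
          simpa using (h.poly 0).V_nonneg i q
        have h5 : (1 : ℝ) ≤ kk0 dd Δ₀ ⬝ᵥ V i := h3
        linarith) (fun v hv => by
        have h6 := hu
        have h7 := hmF v hv
        rw [hd] at h7
        have h8 := hu
        rw [add_dotProduct]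
        have h9 : (Pi.single q 1 : Fin n → ℝ) ⬝ᵥ V v = 0 := by simpa using h7
        rw [h9, add_zero]
        have h1 := (h.poly 0).dual Δ₀ hΔ₀
        have h2 : kk0 dd Δ₀ = ∑ w ∈ Δ₀, dd Δ₀ w := by
          funext j
          simp [kk0, Finset.sum_apply]
        rw [h2, sum_dotProduct, Finset.sum_eq_single v]
        · rw [h1 v (hFΔ hv) v (hFΔ hv), if_pos rfl]
        · intro w hw hwv
          rw [h1 w hw v (hFΔ hv), if_neg hwv]
        · intro hv'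
          exact absurd (hFΔ hv) hv')
      rw [add_dotProduct, h0] at h2
      have h3 : (Pi.single q 1 : Fin n → ℝ) ⬝ᵥ V u = V u q := by simp
      rw [h3] at h2
      linarith
    · rw [hq] at hm hmF
      have hd : ∀ w, ray (kk0 dd) (Sum.inr Δ) ⬝ᵥ hv 1 (V w) = kk0 dd Δ ⬝ᵥ V w - 1 := by
        intro w
        simp only [ray, Sum.elim_inr]
        rw [Pool.Agent.helper74.DL.cons_hv, one_mul]
      rw [hd, hu (kk0 dd Δ) (fun i => by
        have := hm i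
        rw [hd] at this
        linarith) (fun v hv => by
        have := hmF v hv
        rw [hd] at this
        linarith), sub_self]
  rw [div_eq_zero_iff]
  left
  by_contra hne
  -- a vector orthogonal to all rows
  set b : {v // v ∈ F} → Fin (n + 1) → ℝ := fun v => Fin.cons 0 (dd Δ₀ v) with hb
  set w : Fin (n + 1) → ℝ := hv 1 (V u) - ∑ v : {v // v ∈ F}, (b v ⬝ᵥ hv 1 (V u)) • hv 1 (V v)
    with hw
  have hbv : ∀ v v' : {v // v ∈ F}, b v ⬝ᵥ hv 1 (V v') = if v = v' then 1 else 0 := fun v v' =>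
    lift_dual h hΔ₀ hFΔ (fun _ => 1) v v'
  have hli := adet_li _ hne
  have hspan : Submodule.span ℝ (Set.range (Sum.elim (fun j => ray (kk0 dd) (D x j)) b)) = ⊤ := by
    apply hli.span_eq_top_of_card_eq_finrank'
    simp
    omega
  have horth : ∀ y : Fin (n + 1) → ℝ, y ⬝ᵥ w = 0 := by
    intro y
    have hy : y ∈ Submodule.span ℝ
        (Set.range (Sum.elim (fun j => ray (kk0 dd) (D x j)) b)) := by
      rw [hspan]; trivial
    induction hy using Submodule.span_induction with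
    | mem y hy =>
      obtain ⟨k, rfl⟩ := hy
      rcases k with j | v
      · simp only [Sum.elim_inl]
        rw [hw, dotProduct_sub, hray j, dotProduct_sum, Finset.sum_eq_zero, sub_zero]
        intro v _
        rw [dotProduct_smul, hD.memF0 h.lim x j v v.2, smul_zero]
      · simp only [Sum.elim_inr]
        rw [hw, dotProduct_sub, dotProduct_sum, Finset.sum_eq_single v]
        · rw [dotProduct_smul, hbv v v, if_pos rfl]
          simp
        · intro v' _ hne'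
          rw [dotProduct_smul, hbv v v', if_neg (Ne.symm hne'), smul_zero]
        · intro hv'
          exact absurd (mem_univ v) hv'
    | zero => exact zero_dotProduct _
    | add y z _ _ hy hz => rw [add_dotProduct, hy, hz, add_zero]
    | smul a y _ hy => rw [smul_dotProduct, hy, smul_zero]
  have hw0 : w = 0 := by
    have := horth w
    rwa [dotProduct_self_eq_zero] at this
  apply hu'
  rw [hw, sub_eq_zero] at hw0
  rw [hw0]
  refine Submodule.sum_mem _ fun v _ => Submodule.smul_mem _ _ (Submodule.subset_span ?_)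
  exact ⟨v.1, v.2, rfl⟩

end Pool.Agent.helper51.DL
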