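import Mathlib
import Pool.Agent.helper51.DL.Lim

set_option autoImplicit false

/-! # Module LIM: the nondegenerate limit cones are a decomposition -/

namespace Pool.Agent.helper51.DL

open Finset Filter Topology Pool.Agent.helper61.DL

section Gen

variable {M : ℕ} {κ : Type} [Fintype κ]

theorem adet_ne_zero (w : κ → Fin M → ℝ) (hc : Fintype.card κ = M) (h : LinearIndependent ℝ w) :
    adet w ≠ 0 := by
  classical
  have e : κ ≃ Fin M := Fintype.equivFinOfCardEq hc
  rw [adet_eq w e, abs_ne_zero]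
  have h1 : LinearIndependent ℝ (fun i => (Matrix.of fun i => w (e.symm i)) i) := by
    have : (fun i => (Matrix.of fun i => w (e.symm i)) i) = w ∘ e.symm := rfl
    rw [this]
    exact h.comp _ e.symm.injective
  have h2 := Matrix.linearIndependent_rows_iff_isUnit.1 h1
  rw [Matrix.isUnit_iff_isUnit_det] at h2
  exact h2.ne_zero

theorem li_sum {ℓ : ℕ} [DecidableEq κ] (D : Fin ℓ → Fin M → ℝ) (g b : κ → Fin M → ℝ)
    (hD : LinearIndependent ℝ D) (hb : ∀ u v, b u ⬝ᵥ g v = if u = v then 1 else 0)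
    (hg : ∀ j v, D j ⬝ᵥ g v = 0) : LinearIndependent ℝ (Sum.elim D b) := by
  rw [Fintype.linearIndependent_iff]
  intro c hc0
  rw [Fintype.sum_sum_type] at hc0
  simp only [Sum.elim_inl, Sum.elim_inr] at hc0
  have h1 : ∀ v, c (Sum.inr v) = 0 := by
    intro v
    have h2 := congrArg (fun y => y ⬝ᵥ g v) hc0
    simp only [zero_dotProduct, add_dotProduct, sum_dotProduct, smul_dotProduct, hg, hb,
      smul_zero, Finset.sum_const_zero, zero_add] at h2
    simpa using h2
  simp only [h1, zero_smul, Finset.sum_const_zero, add_zero] at hc0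
  rw [Fintype.linearIndependent_iff] at hD
  rintro (i | i)
  · exact hD _ hc0 i
  · exact h1 i

end Gen

section Dec

variable {n : ℕ} {ι : Type} [Fintype ι] [DecidableEq ι] {V : ι → Fin n → ℝ} {om : ι → ℝ}
    {𝒱 : Finset (Finset ι)} {dd : Finset ι → ι → Fin n → ℝ} {η : ℕ → ℝ} {F : Finset ι}
    {s : ℝ} {ξ : Fin n → ℝ} {ℓ : ℕ} {β : Type} [Fintype β] {D : β → Fin ℓ → Fin n ⊕ Finset ι}

/-- points of the relative interior are in some limit cone -/
theorem rel_cover (h : LimHyp V om 𝒱 dd η F s ξ) (hD : Data V om 𝒱 dd η F s ξ ℓ β D)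
    {Δ₀ : Finset ι} (hΔ₀ : Δ₀ ∈ 𝒱) (hFΔ : F ⊆ Δ₀)
    (htau : ∀ u ∈ tau V F, hv 1 (V u) ∈ Submodule.span ℝ ((fun v => hv 1 (V v)) '' (F : Set ι)))
    (z : Fin (n + 1) → ℝ) (hz : ∀ v ∈ F, z ⬝ᵥ hv 1 (V v) = 0) (hz0 : 0 < z 0)
    (hzu : ∀ u, u ∉ tau V F → 0 < z ⬝ᵥ hv 1 (V u)) :
    ∃ x, ∃ t : Fin ℓ → ℝ, (∀ j, 0 ≤ t j) ∧ z = ∑ j, t j • ray (kk0 dd) (D x j) := by
  classical
  set b : {v // v ∈ F} → Fin (n + 1) → ℝ := fun v => Fin.cons 0 (dd Δ₀ v) with hb
  have hbv : ∀ (a : ι → ℝ) (v v' : {v // v ∈ F}), b v ⬝ᵥ hv (a v') (V v') =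
      if v = v' then 1 else 0 := fun a v v' => lift_dual h hΔ₀ hFΔ a v v'
  set zm : ℕ → Fin (n + 1) → ℝ := fun m =>
    z - ∑ v : {v // v ∈ F}, (z ⬝ᵥ hv (1 - η m * om v) (V v)) • b v with hzm
  have hzt : ∀ i, Tendsto (fun m => zm m i) atTop (𝓝 (z i)) := by
    intro i
    have h1 : Tendsto (fun m => z i - ∑ v : {v // v ∈ F}, (z ⬝ᵥ hv (1 - η m * om v) (V v)) * b v i)
        atTop (𝓝 (z i - ∑ v : {v // v ∈ F}, (z ⬝ᵥ hv 1 (V v)) * b v i)) := by
      refine tendsto_const_nhds.sub (tendsto_finsetSum _ fun v _ => Tendsto.mul_const _ ?_)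
      exact dot_tendsto _ _ _ _ (fun i => tendsto_const_nhds) (hv_tendsto V om η h.lim v)
    have h2 : ∑ v : {v // v ∈ F}, (z ⬝ᵥ hv 1 (V v)) * b v i = 0 :=
      Finset.sum_eq_zero fun v _ => by rw [hz v v.2, zero_mul]
    rw [h2, sub_zero] at h1
    refine h1.congr fun m => ?_
    simp [hzm, Finset.sum_apply]
  refine compact_cone (fun m x j => ray (kkm dd om (η m)) (D x j))
    (fun x j => ray (kk0 dd) (D x j)) (fun x j i => ray_tendsto dd om η h.lim _ i)
    (fun m x j i => hD.nonneg m x j i) (fun x j => ⟨_, fun m => ray_one _ _⟩) zm z hzt ?_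
  have hev : ∀ᶠ m in atTop, ∀ u, u ∉ tau V F → 0 < zm m ⬝ᵥ hv (1 - η m * om u) (V u) := by
    rw [Filter.eventually_all]
    intro u
    by_cases hu : u ∈ tau V F
    · exact Filter.Eventually.of_forall fun m hu' => absurd hu hu'
    · have h1 : Tendsto (fun m => zm m ⬝ᵥ hv (1 - η m * om u) (V u)) atTop
          (𝓝 (z ⬝ᵥ hv 1 (V u))) := dot_tendsto _ _ _ _ hzt (hv_tendsto V om η h.lim u)
      filter_upwards [h1.eventually_const_lt (hzu u hu)] with m hm _ using hm
  refine hev.frequently.mono fun m hm => hD.cover m (zm m) ?_ ?_ ?_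
  · -- nonneg
    have hF0 : ∀ v ∈ F, zm m ⬝ᵥ hv (1 - η m * om v) (V v) = 0 := by
      intro v hv
      simp only [hzm]
      rw [sub_dotProduct, sum_dotProduct, Finset.sum_eq_single (⟨v, hv⟩ : {v // v ∈ F})]
      · rw [smul_dotProduct, hbv (fun v => 1 - η m * om v) ⟨v, hv⟩ ⟨v, hv⟩, if_pos rfl]
        simp
      · intro w _ hw
        rw [smul_dotProduct, hbv (fun v => 1 - η m * om v) w ⟨v, hv⟩, if_neg hw, smul_zero]
      · intro h'
        exact absurd (mem_univ _) h'
    have hN : zm m 0 = z 0 := by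
      simp only [hzm, Pi.sub_apply, Finset.sum_apply, Pi.smul_apply, hb, Fin.cons_zero, smul_zero,
        Finset.sum_const_zero, sub_zero]
    intro u
    by_cases hu : u ∈ tau V F
    swap
    · exact (hm u hu).le
    have h1 := htau u hu
    rw [Set.image_eq_range, Submodule.mem_span_range_iff_exists_fun] at h1
    obtain ⟨c, hc⟩ := h1
    have hc0 : ∑ v : (F : Set ι), c v = 1 := by
      have h2 := congrFun hc 0
      simp only [Finset.sum_apply, Pi.smul_apply, hv, Fin.cons_zero, smul_eq_mul, mul_neg,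
        mul_one, Finset.sum_neg_distrib, neg_inj] at h2
      exact h2
    have hcV : ∀ κ : Fin n → ℝ, κ ⬝ᵥ V u = ∑ v : (F : Set ι), c v * (κ ⬝ᵥ V v) := by
      intro κ
      have h2 : V u = ∑ v : (F : Set ι), c v • V v := by
        funext i
        have h3 := congrFun hc i.succ
        simp only [Finset.sum_apply, Pi.smul_apply, hv, Fin.cons_succ] at h3
        rw [← h3]
        simp [Finset.sum_apply]
      rw [h2, dotProduct_sum]
      simp [dotProduct_smul]
    have hP := h.poly m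
    have h3 := hP.kk_le Δ₀ hΔ₀ u
    rw [hcV] at h3
    have h4 : ∑ v : (F : Set ι), c v * ((fun j => ∑ v ∈ Δ₀, (1 - η m * om v) * dd Δ₀ v j) ⬝ᵥ V v) =
        ∑ v : (F : Set ι), c v * (1 - η m * om v) :=
      Finset.sum_congr rfl fun v _ => by rw [(hP.kk_eq Δ₀ hΔ₀ v).1 (hFΔ v.2)]
    rw [h4] at h3
    rw [Pool.Agent.helper74.DL.dot_hv, hcV]
    have h5 : ∑ v : (F : Set ι), c v * (Fin.tail (zm m) ⬝ᵥ V v) =
        zm m 0 * ∑ v : (F : Set ι), c v * (1 - η m * om v) := by
      rw [Finset.mul_sum]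
      refine Finset.sum_congr rfl fun v _ => ?_
      have h6 := hF0 v v.2
      rw [Pool.Agent.helper74.DL.dot_hv] at h6
      have h7 : Fin.tail (zm m) ⬝ᵥ V v = zm m 0 * (1 - η m * om v) := by linarith
      rw [h7]
      ring
    rw [h5, ← mul_sub, hN]
    exact mul_nonneg hz0.le (by linarith)
  · intro v hv
    simp only [hzm]
    rw [sub_dotProduct, sum_dotProduct, Finset.sum_eq_single (⟨v, hv⟩ : {v // v ∈ F})]
    · rw [smul_dotProduct, hbv (fun v => 1 - η m * om v) ⟨v, hv⟩ ⟨v, hv⟩, if_pos rfl]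
      simp
    · intro w _ hw
      rw [smul_dotProduct, hbv (fun v => 1 - η m * om v) w ⟨v, hv⟩, if_neg hw, smul_zero]
    · intro h'
      exact absurd (mem_univ _) h'
  · have hN : zm m 0 = z 0 := by
      simp only [hzm, Pi.sub_apply, Finset.sum_apply, Pi.smul_apply, hb, Fin.cons_zero, smul_zero,
        Finset.sum_const_zero, sub_zero]
    rw [hN]
    exact hz0

/-- a point of the relative interior -/
theorem exists_interior (h : LimHyp V om 𝒱 dd η F s ξ)
    {Δ₀ : Finset ι} (hΔ₀ : Δ₀ ∈ 𝒱) (hFΔ : F ⊆ Δ₀) (hne : F ≠ ∅) :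
    ∃ K : Fin (n + 1) → ℝ, (∀ v ∈ F, K ⬝ᵥ hv 1 (V v) = 0) ∧ 0 < K 0 ∧
      ∀ u, u ∉ tau V F → 0 < K ⬝ᵥ hv 1 (V u) := by
  classical
  have h0F : ∀ v ∈ F, kk0 dd Δ₀ ⬝ᵥ V v = 1 := by
    intro v hv
    have h1 := (h.poly 0).dual Δ₀ hΔ₀
    have h2 : kk0 dd Δ₀ = ∑ w ∈ Δ₀, dd Δ₀ w := by
      funext j
      simp [kk0, Finset.sum_apply]
    rw [h2, sum_dotProduct, Finset.sum_eq_single v]
    · rw [h1 v (hFΔ hv) v (hFΔ hv), if_pos rfl]
    · intro w hw hwv
      rw [h1 w hw v (hFΔ hv), if_neg hwv]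
    · intro hv'
      exact absurd (hFΔ hv) hv'
  have hex : ∀ u, ∃ k : Fin n → ℝ, (∀ i, 1 ≤ k ⬝ᵥ V i) ∧ (∀ v ∈ F, k ⬝ᵥ V v = 1) ∧
      (u ∉ tau V F → k ⬝ᵥ V u ≠ 1) := by
    intro u
    by_cases hu : u ∈ tau V F
    · exact ⟨kk0 dd Δ₀, h.one_le Δ₀ hΔ₀, h0F, fun h' => absurd hu h'⟩
    · have hu2 := hu
      simp only [tau, mem_filter, mem_univ, true_and] at hu2
      push Not at hu2
      obtain ⟨k, h1, h2, h3⟩ := hu2
      exact ⟨k, h1, h2, fun _ => h3⟩
  choose κ h1 h2 h3 using hex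
  have hd : ∀ w, (∑ u, (Fin.cons 1 (κ u) : Fin (n + 1) → ℝ)) ⬝ᵥ hv 1 (V w) =
      ∑ u, (κ u ⬝ᵥ V w - 1) := by
    intro w
    rw [sum_dotProduct]
    refine Finset.sum_congr rfl fun u _ => ?_
    rw [Pool.Agent.helper74.DL.cons_hv, one_mul]
  refine ⟨∑ u, Fin.cons 1 (κ u), fun v hv => ?_, ?_, fun u hu => ?_⟩
  · rw [hd]
    exact Finset.sum_eq_zero fun u _ => by rw [h2 u v hv, sub_self]
  · rw [Finset.sum_apply]
    simp only [Fin.cons_zero, Finset.sum_const, nsmul_eq_mul, mul_one]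
    obtain ⟨v, _⟩ := Finset.nonempty_iff_ne_empty.2 hne
    have : 0 < Fintype.card ι := Fintype.card_pos_iff.2 ⟨v⟩
    rw [Finset.card_univ]
    exact_mod_cast this
  · rw [hd]
    refine Finset.sum_pos' (fun w _ => by linarith [h1 w u]) ⟨u, mem_univ u, ?_⟩
    have h4 := h1 u u
    have h5 := h3 u hu
    have : 1 < κ u ⬝ᵥ V u := lt_of_le_of_ne h4 (Ne.symm h5)
    linarith

/-- the common kernel of the `hv 1 (V v)` -/
noncomputable def SF (V : ι → Fin n → ℝ) (F : Finset ι) : Submodule ℝ (Fin (n + 1) → ℝ) :=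
  LinearMap.ker (Matrix.mulVecLin (Matrix.of fun (v : {v // v ∈ F}) => hv 1 (V v)))

theorem mem_SF (z : Fin (n + 1) → ℝ) : z ∈ SF V F ↔ ∀ v ∈ F, z ⬝ᵥ hv 1 (V v) = 0 := by
  rw [SF, LinearMap.mem_ker, Matrix.mulVecLin_apply, funext_iff]
  constructor
  · intro h v hv
    have := h ⟨v, hv⟩
    rw [dotProduct_comm]
    exact this
  · rintro h ⟨v, hv⟩
    have := h v hv
    rw [dotProduct_comm] at this
    exact this

theorem finrank_SF (hℓ : ℓ + F.card = n + 1) : ℓ ≤ Module.finrank ℝ (SF V F) := by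
  have h1 := LinearMap.finrank_range_add_finrank_ker
    (Matrix.mulVecLin (Matrix.of fun (v : {v // v ∈ F}) => hv 1 (V v)))
  have h2 : Module.finrank ℝ (LinearMap.range
      (Matrix.mulVecLin (Matrix.of fun (v : {v // v ∈ F}) => hv 1 (V v)))) ≤ F.card := by
    refine (Submodule.finrank_le _).trans ?_
    simp
  rw [Module.finrank_fin_fun] at h1
  change ℓ ≤ Module.finrank ℝ (LinearMap.ker
    (Matrix.mulVecLin (Matrix.of fun (v : {v // v ∈ F}) => hv 1 (V v))))
  omega

theorem not_SF_le (hℓ : ℓ + F.card = n + 1) (d : Fin ℓ → Fin (n + 1) → ℝ)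
    (hd : ¬ LinearIndependent ℝ d) : ¬ SF V F ≤ Submodule.span ℝ (Set.range d) := by
  intro hle
  have h1 := Submodule.finrank_mono hle
  have h2 := finrank_SF (V := V) (F := F) hℓ
  have h3 : Module.finrank ℝ (Submodule.span ℝ (Set.range d)) ≤ ℓ := by
    have := finrank_range_le_card (R := ℝ) d
    simpa [Set.finrank] using this
  apply hd
  rw [linearIndependent_iff_card_eq_finrank_span, Fintype.card_fin, Set.finrank]
  omega

end Dec

/-- otherwise the non-degenerate limit cones are a decomposition -/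
theorem lim_dec {n : ℕ} {ι : Type} [Fintype ι] [DecidableEq ι] {V : ι → Fin n → ℝ} {om : ι → ℝ}
    {𝒱 : Finset (Finset ι)} {dd : Finset ι → ι → Fin n → ℝ} {η : ℕ → ℝ} {F : Finset ι}
    {s : ℝ} {ξ : Fin n → ℝ} (h : LimHyp V om 𝒱 dd η F s ξ) (hne : F ≠ ∅)
    (htau : ∀ u ∈ tau V F, hv 1 (V u) ∈ Submodule.span ℝ ((fun v => hv 1 (V v)) '' (F : Set ι)))
    (ℓ : ℕ) (hℓ1 : 1 ≤ ℓ) (hℓ : ℓ + F.card = n + 1) :
    ∃ (β : Type) (_ : Fintype β) (D : β → Fin ℓ → Fin (n + 1) → ℝ),
      Dec V F s ξ (RS V 𝒱 (fun Δ j => ∑ v ∈ Δ, dd Δ v j) dd s ξ F) D := by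
  classical
  obtain ⟨Δ₀, hΔ₀, hFΔ⟩ := Pool.Agent.helper74.DL.mem_fcs.1 h.hF
  obtain ⟨β, hβ, D, hD⟩ := exists_data h ℓ hℓ1 hℓ
  change ∃ (β : Type) (_ : Fintype β) (D : β → Fin ℓ → Fin (n + 1) → ℝ),
      Dec V F s ξ (RS V 𝒱 (kk0 dd) dd s ξ F) D
  set b : {v // v ∈ F} → Fin (n + 1) → ℝ := fun v => Fin.cons 0 (dd Δ₀ v) with hb
  have hbv : ∀ (a : ι → ℝ) (v v' : {v // v ∈ F}), b v ⬝ᵥ hv (a v') (V v') =
      if v = v' then 1 else 0 := fun a v v' => lift_dual h hΔ₀ hFΔ a v v'
  have hcard : Fintype.card (Fin ℓ ⊕ {v // v ∈ F}) = n + 1 := by simpa using hℓ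
  refine ⟨{x : β // LinearIndependent ℝ fun j => ray (kk0 dd) (D x j)}, inferInstance,
    fun x j => ray (kk0 dd) (D x.1 j), ?_⟩
  constructor
  · exact fun x j u => hD.mem0 h.lim x.1 j u
  · exact fun x j v hv => hD.memF0 h.lim x.1 j v hv
  · exact fun x j i => hD.nonneg0 h.lim x.1 j i
  · exact fun x j => x.2.ne_zero j
  · exact fun x => x.2
  · -- cover
    intro k hk hkF hk0
    obtain ⟨K, hKF, hK0, hKu⟩ := exists_interior h hΔ₀ hFΔ hne
    set W : {x : β // ¬ LinearIndependent ℝ fun j => ray (kk0 dd) (D x j)} →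
      Submodule ℝ (Fin (n + 1) → ℝ) :=
      fun x => Submodule.span ℝ (Set.range fun j => ray (kk0 dd) (D x.1 j)) with hW
    obtain ⟨g, hgS, hgW⟩ := exists_avoid (SF V F) W fun x => not_SF_le hℓ _ x.2
    rw [mem_SF] at hgS
    -- a generic point of the relative interior
    obtain ⟨g', hgF', hg0', hgu', hgW'⟩ : ∃ g' : Fin (n + 1) → ℝ,
        (∀ v ∈ F, g' ⬝ᵥ hv 1 (V v) = 0) ∧ 0 < g' 0 ∧
        (∀ u, u ∉ tau V F → 0 < g' ⬝ᵥ hv 1 (V u)) ∧ ∀ x, g' ∉ W x := by
      have h1 := avoid_line W K g hgW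
      have h2 : ∀ᶠ δ : ℝ in 𝓝[>] 0, 0 < (K + δ • g) 0 := by
        refine Filter.Eventually.filter_mono nhdsWithin_le_nhds ?_
        have hcont : Continuous fun δ : ℝ => (K + δ • g) 0 := by
          simp only [Pi.add_apply, Pi.smul_apply, smul_eq_mul]
          fun_prop
        exact hcont.continuousAt.eventually_const_lt (by simpa using hK0)
      have h3 : ∀ᶠ δ : ℝ in 𝓝[>] 0, ∀ u, u ∉ tau V F → 0 < (K + δ • g) ⬝ᵥ hv 1 (V u) := by
        rw [Filter.eventually_all]
        intro u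
        by_cases hu : u ∈ tau V F
        · exact Filter.Eventually.of_forall fun m hu' => absurd hu hu'
        · refine Filter.Eventually.filter_mono nhdsWithin_le_nhds ?_
          have hcont : Continuous fun δ : ℝ => (K + δ • g) ⬝ᵥ hv 1 (V u) := by
            simp only [add_dotProduct, smul_dotProduct, smul_eq_mul]
            fun_prop
          have h4 : ∀ᶠ δ : ℝ in 𝓝 0, 0 < (K + δ • g) ⬝ᵥ hv 1 (V u) :=
            hcont.continuousAt.eventually_const_lt (by simpa using hKu u hu)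
          filter_upwards [h4] with m hm _ using hm
      obtain ⟨δ, h4, h5, h6⟩ := (h1.and (h2.and h3)).exists
      refine ⟨K + δ • g, fun v hv => ?_, h5, h6, h4⟩
      rw [add_dotProduct, smul_dotProduct, hKF v hv, hgS v hv, smul_zero, add_zero]
    have hev := avoid_line W k g' hgW'
    have hseq : Tendsto (fun m : ℕ => (1 : ℝ) / (m + 1)) atTop (𝓝[>] 0) := by
      refine tendsto_nhdsWithin_iff.2 ⟨tendsto_one_div_add_atTop_nhds_zero_nat, ?_⟩
      exact Filter.Eventually.of_forall fun m => by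
        have : (0 : ℝ) < 1 / ((m : ℝ) + 1) := by positivity
        exact this
    have hev2 := hseq.eventually hev
    refine compact_cone (β := {x : β // LinearIndependent ℝ fun j => ray (kk0 dd) (D x j)})
      (fun _ x j => ray (kk0 dd) (D x.1 j)) (fun x j => ray (kk0 dd) (D x.1 j))
      (fun x j i => tendsto_const_nhds) (fun m x j i => hD.nonneg0 h.lim x.1 j i)
      (fun x j => ⟨_, fun _ => ray_one _ _⟩) (fun m => k + ((1 : ℝ) / (m + 1)) • g') k
      (fun i => ?_) ?_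
    · have h1 : Tendsto (fun m : ℕ => k i + (1 : ℝ) / (m + 1) * g' i) atTop
          (𝓝 (k i + 0 * g' i)) :=
        tendsto_const_nhds.add (tendsto_one_div_add_atTop_nhds_zero_nat.mul_const _)
      rw [zero_mul, add_zero] at h1
      exact h1
    · refine hev2.frequently.mono fun m hm => ?_
      have hpos : (0 : ℝ) < 1 / ((m : ℝ) + 1) := by positivity
      obtain ⟨x, t, ht, hx⟩ := rel_cover h hD hΔ₀ hFΔ htau (k + ((1 : ℝ) / (m + 1)) • g')
        (fun v hv => by
          rw [add_dotProduct, smul_dotProduct, hkF v hv, hgF' v hv, smul_zero, add_zero])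
        (by
          simp only [Pi.add_apply, Pi.smul_apply, smul_eq_mul]
          positivity)
        (fun u hu => by
          rw [add_dotProduct, smul_dotProduct, smul_eq_mul]
          have h1 := hk u
          have h2 := hgu' u hu
          positivity)
      have hxli : LinearIndependent ℝ fun j => ray (kk0 dd) (D x j) := by
        by_contra hnli
        apply hm ⟨x, hnli⟩
        simp only [hW]
        rw [hx]
        exact Submodule.sum_mem _ fun j _ => Submodule.smul_mem _ _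
          (Submodule.subset_span ⟨j, rfl⟩)
      exact ⟨⟨x, hxli⟩, t, ht, hx⟩
  · -- disj
    intro x x' hxx' t t' ht ht' heq
    have hli' := li_sum (fun j => ray (kk0 dd) (D x'.1 j)) (fun v : {v // v ∈ F} => hv 1 (V v)) b
      x'.2 (hbv fun _ => 1) (fun j v => hD.memF0 h.lim x'.1 j v v.2)
    have had := adet_ne_zero _ hcard hli'
    obtain ⟨c, hc, hcev⟩ := coord_tendsto (Fintype.equivFinOfCardEq hcard)
      (fun m => Sum.elim (fun j => ray (kkm dd om (η m)) (D x'.1 j)) b)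
      (Sum.elim (fun j => ray (kk0 dd) (D x'.1 j)) b)
      (fun k i => by
        rcases k with k | k
        · simp only [Sum.elim_inl]
          exact ray_tendsto dd om η h.lim _ i
        · simp only [Sum.elim_inr]
          exact tendsto_const_nhds) had
      (fun m => ∑ j, t j • ray (kkm dd om (η m)) (D x.1 j)) (Sum.elim t' 0)
      (fun i => by
        rw [Fintype.sum_sum_type]
        simp only [Sum.elim_inl, Sum.elim_inr, Pi.zero_apply, zero_smul, Finset.sum_const_zero,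
          add_zero]
        rw [← heq]
        simp only [Finset.sum_apply, Pi.smul_apply, smul_eq_mul]
        exact tendsto_finsetSum _ fun j _ => (ray_tendsto dd om η h.lim _ i).const_mul _)
    have hpos : ∀ᶠ m in atTop, ∀ j, 0 < c m (Sum.inl j) := by
      rw [Filter.eventually_all]
      intro j
      exact (hc (Sum.inl j)).eventually_const_lt (by simpa using ht' j)
    obtain ⟨m, hm1, hm2⟩ := (hcev.and hpos).exists
    rw [Fintype.sum_sum_type] at hm1
    simp only [Sum.elim_inl, Sum.elim_inr] at hm1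
    have hc0 : ∀ v : {v // v ∈ F}, c m (Sum.inr v) = 0 := by
      intro v
      have h1 := congrArg (fun y => y ⬝ᵥ hv (1 - η m * om v) (V v)) hm1
      simp only [add_dotProduct, sum_dotProduct, smul_dotProduct,
        hD.memF m x.1 _ v v.2, hD.memF m x'.1 _ v v.2, smul_zero, Finset.sum_const_zero,
        zero_add] at h1
      rw [Finset.sum_eq_single v] at h1
      · rw [hbv (fun v => 1 - η m * om v) v v, if_pos rfl] at h1
        simpa using h1.symm
      · intro w _ hw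
        rw [hbv (fun v => 1 - η m * om v) w v, if_neg hw, smul_zero]
      · intro h'
        exact absurd (mem_univ _) h'
    simp only [hc0, zero_smul, Finset.sum_const_zero, add_zero] at hm1
    exact hD.disj m x.1 x'.1 (fun h' => hxx' (Subtype.ext h')) t (fun j => c m (Sum.inl j)) ht hm2
      hm1
  · -- val
    intro b' hb'
    rw [← val0 h hD hΔ₀ hFΔ]
    have h1 : ∀ x, adet (Sum.elim (fun j => ray (kk0 dd) (D x j))
        (fun v : {v // v ∈ F} => b' v)) = adet (Sum.elim (fun j => ray (kk0 dd) (D x j)) b) := by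
      intro x
      refine adet_dual_indep _ (fun v : {v // v ∈ F} => hv 1 (V v)) _ _
        (fun j v => hD.memF0 h.lim x j v v.2) (fun u v => ?_) (fun u v => hbv (fun _ => 1) u v)
        (by simpa using hℓ)
      rw [hb' u u.2 v v.2]
      simp only [Subtype.ext_iff]
    simp only [h1]
    rw [← Finset.sum_subtype (univ.filter fun x => LinearIndependent ℝ fun j =>
      ray (kk0 dd) (D x j)) (p := fun x => LinearIndependent ℝ fun j => ray (kk0 dd) (D x j))
      (by simp) (fun x => adet (Sum.elim (fun j => ray (kk0 dd) (D x j)) b) /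
        ∏ j, (ray (kk0 dd) (D x j) ⬝ᵥ (Fin.cons s ξ : Fin (n + 1) → ℝ)))]
    refine Finset.sum_filter_of_ne fun x _ hx => ?_
    by_contra hnli
    apply hx
    rw [adet_eq_zero_of_not_li _ _ hnli, zero_div]

end Pool.Agent.helper51.DL
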