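import Mathlib
import Pool.Agent.helper61.DL.Exist
import Pool.Agent.helper51.DL.Lim2

set_option autoImplicit false

/-! # The dual cones of the faces of a Newton polyhedron have simplicial subdivisions -/

namespace Pool.Agent.helper51.DL

open Finset Filter Topology Pool.Agent.helper61.DL

/-- the non-degenerate limit cones are a decomposition, with symbolic rays -/
theorem lim_dec_sym {n : ℕ} {ι : Type} [Fintype ι] [DecidableEq ι] {V : ι → Fin n → ℝ} {om : ι → ℝ}
    {𝒱 : Finset (Finset ι)} {dd : Finset ι → ι → Fin n → ℝ} {η : ℕ → ℝ} {F : Finset ι}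
    {s : ℝ} {ξ : Fin n → ℝ} (h : LimHyp V om 𝒱 dd η F s ξ) (hne : F ≠ ∅)
    (htau : ∀ u ∈ tau V F, hv 1 (V u) ∈ Submodule.span ℝ ((fun v => hv 1 (V v)) '' (F : Set ι)))
    (ℓ : ℕ) (hℓ1 : 1 ≤ ℓ) (hℓ : ℓ + F.card = n + 1) :
    ∃ (β : Type) (_ : Fintype β) (D : β → Fin ℓ → Fin n ⊕ Finset ι),
      Dec V F s ξ (RS V 𝒱 (kk0 dd) dd s ξ F) (fun x j => ray (kk0 dd) (D x j)) := by
  classical
  obtain ⟨Δ₀, hΔ₀, hFΔ⟩ := Pool.Agent.helper74.DL.mem_fcs.1 h.hF
  obtain ⟨β, hβ, D, hD⟩ := exists_data h ℓ hℓ1 hℓ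
  set b : {v // v ∈ F} → Fin (n + 1) → ℝ := fun v => Fin.cons 0 (dd Δ₀ v) with hb
  have hbv : ∀ (a : ι → ℝ) (v v' : {v // v ∈ F}), b v ⬝ᵥ hv (a v') (V v') =
      if v = v' then 1 else 0 := fun a v v' => lift_dual h hΔ₀ hFΔ a v v'
  have hcard : Fintype.card (Fin ℓ ⊕ {v // v ∈ F}) = n + 1 := by simpa using hℓ
  refine ⟨{x : β // LinearIndependent ℝ fun j => ray (kk0 dd) (D x j)}, inferInstance,
    fun x j => D x.1 j, ?_⟩
  constructor
  · exact fun x j u => hD.mem0 h.lim x.1 j u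
  · exact fun x j v hv => hD.memF0 h.lim x.1 j v hv
  · exact fun x j i => hD.nonneg0 h.lim x.1 j i
  · exact fun x j => x.2.ne_zero j
  · exact fun x => x.2
  · -- cover
    intro k hk hkF hk0
    obtain ⟨K, hKF, hK0, hKu⟩ := exists_interior h hΔ₀ hFΔ hne
    set W : {x : β // ¬ LinearIndependent ℝ fun j => ray (kk0 dd) (D x j)} →
      Submodule ℝ (Fin (n + 1) → ℝ) :=
      fun x => Submodule.span ℝ (Set.range fun j => ray (kk0 dd) (D x.1 j)) with hW
    obtain ⟨g, hgS, hgW⟩ := exists_avoid (SF V F) W fun x => not_SF_le hℓ _ x.2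
    rw [mem_SF] at hgS
    -- a generic point of the relative interior
    obtain ⟨g', hgF', hg0', hgu', hgW'⟩ : ∃ g' : Fin (n + 1) → ℝ,
        (∀ v ∈ F, g' ⬝ᵥ hv 1 (V v) = 0) ∧ 0 < g' 0 ∧
        (∀ u, u ∉ tau V F → 0 < g' ⬝ᵥ hv 1 (V u)) ∧ ∀ x, g' ∉ W x := by
      have h1 := avoid_line W K g hgW
      have h2 : ∀ᶠ δ : ℝ in 𝓝[>] 0, 0 < (K + δ • g) 0 := by
        refine Filter.Eventually.filter_mono nhdsWithin_le_nhds ?_
        have hcont : Continuous fun δ : ℝ => (K + δ • g) 0 := by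
          simp only [Pi.add_apply, Pi.smul_apply, smul_eq_mul]
          fun_prop
        exact hcont.continuousAt.eventually_const_lt (by simpa using hK0)
      have h3 : ∀ᶠ δ : ℝ in 𝓝[>] 0, ∀ u, u ∉ tau V F → 0 < (K + δ • g) ⬝ᵥ hv 1 (V u) := by
        rw [Filter.eventually_all]
        intro u
        by_cases hu : u ∈ tau V F
        · exact Filter.Eventually.of_forall fun m hu' => absurd hu hu'
        · refine Filter.Eventually.filter_mono nhdsWithin_le_nhds ?_
          have hcont : Continuous fun δ : ℝ => (K + δ • g) ⬝ᵥ hv 1 (V u) := by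
            simp only [add_dotProduct, smul_dotProduct, smul_eq_mul]
            fun_prop
          have h4 : ∀ᶠ δ : ℝ in 𝓝 0, 0 < (K + δ • g) ⬝ᵥ hv 1 (V u) :=
            hcont.continuousAt.eventually_const_lt (by simpa using hKu u hu)
          filter_upwards [h4] with m hm _ using hm
      obtain ⟨δ, h4, h5, h6⟩ := (h1.and (h2.and h3)).exists
      refine ⟨K + δ • g, fun v hv => ?_, h5, h6, h4⟩
      rw [add_dotProduct, smul_dotProduct, hKF v hv, hgS v hv, smul_zero, add_zero]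
    have hev := avoid_line W k g' hgW'
    have hseq : Tendsto (fun m : ℕ => (1 : ℝ) / (m + 1)) atTop (𝓝[>] 0) := by
      refine tendsto_nhdsWithin_iff.2 ⟨tendsto_one_div_add_atTop_nhds_zero_nat, ?_⟩
      exact Filter.Eventually.of_forall fun m => by
        have : (0 : ℝ) < 1 / ((m : ℝ) + 1) := by positivity
        exact this
    have hev2 := hseq.eventually hev
    refine compact_cone (β := {x : β // LinearIndependent ℝ fun j => ray (kk0 dd) (D x j)})
      (fun _ x j => ray (kk0 dd) (D x.1 j)) (fun x j => ray (kk0 dd) (D x.1 j))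
      (fun x j i => tendsto_const_nhds) (fun m x j i => hD.nonneg0 h.lim x.1 j i)
      (fun x j => ⟨_, fun _ => ray_one _ _⟩) (fun m => k + ((1 : ℝ) / (m + 1)) • g') k
      (fun i => ?_) ?_
    · have h1 : Tendsto (fun m : ℕ => k i + (1 : ℝ) / (m + 1) * g' i) atTop
          (𝓝 (k i + 0 * g' i)) :=
        tendsto_const_nhds.add (tendsto_one_div_add_atTop_nhds_zero_nat.mul_const _)
      rw [zero_mul, add_zero] at h1
      exact h1
    · refine hev2.frequently.mono fun m hm => ?_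
      have hpos : (0 : ℝ) < 1 / ((m : ℝ) + 1) := by positivity
      obtain ⟨x, t, ht, hx⟩ := rel_cover h hD hΔ₀ hFΔ htau (k + ((1 : ℝ) / (m + 1)) • g')
        (fun v hv => by
          rw [add_dotProduct, smul_dotProduct, hkF v hv, hgF' v hv, smul_zero, add_zero])
        (by
          simp only [Pi.add_apply, Pi.smul_apply, smul_eq_mul]
          positivity)
        (fun u hu => by
          rw [add_dotProduct, smul_dotProduct, smul_eq_mul]
          have h1 := hk u
          have h2 := hgu' u hu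
          positivity)
      have hxli : LinearIndependent ℝ fun j => ray (kk0 dd) (D x j) := by
        by_contra hnli
        apply hm ⟨x, hnli⟩
        simp only [hW]
        rw [hx]
        exact Submodule.sum_mem _ fun j _ => Submodule.smul_mem _ _
          (Submodule.subset_span ⟨j, rfl⟩)
      exact ⟨⟨x, hxli⟩, t, ht, hx⟩
  · -- disj
    intro x x' hxx' t t' ht ht' heq
    have hli' := li_sum (fun j => ray (kk0 dd) (D x'.1 j)) (fun v : {v // v ∈ F} => hv 1 (V v)) b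
      x'.2 (hbv fun _ => 1) (fun j v => hD.memF0 h.lim x'.1 j v v.2)
    have had := adet_ne_zero _ hcard hli'
    obtain ⟨c, hc, hcev⟩ := coord_tendsto (Fintype.equivFinOfCardEq hcard)
      (fun m => Sum.elim (fun j => ray (kkm dd om (η m)) (D x'.1 j)) b)
      (Sum.elim (fun j => ray (kk0 dd) (D x'.1 j)) b)
      (fun k i => by
        rcases k with k | k
        · simp only [Sum.elim_inl]
          exact ray_tendsto dd om η h.lim _ i
        · simp only [Sum.elim_inr]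
          exact tendsto_const_nhds) had
      (fun m => ∑ j, t j • ray (kkm dd om (η m)) (D x.1 j)) (Sum.elim t' 0)
      (fun i => by
        rw [Fintype.sum_sum_type]
        simp only [Sum.elim_inl, Sum.elim_inr, Pi.zero_apply, zero_smul, Finset.sum_const_zero,
          add_zero]
        rw [← heq]
        simp only [Finset.sum_apply, Pi.smul_apply, smul_eq_mul]
        exact tendsto_finsetSum _ fun j _ => (ray_tendsto dd om η h.lim _ i).const_mul _)
    have hpos : ∀ᶠ m in atTop, ∀ j, 0 < c m (Sum.inl j) := by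
      rw [Filter.eventually_all]
      intro j
      exact (hc (Sum.inl j)).eventually_const_lt (by simpa using ht' j)
    obtain ⟨m, hm1, hm2⟩ := (hcev.and hpos).exists
    rw [Fintype.sum_sum_type] at hm1
    simp only [Sum.elim_inl, Sum.elim_inr] at hm1
    have hc0 : ∀ v : {v // v ∈ F}, c m (Sum.inr v) = 0 := by
      intro v
      have h1 := congrArg (fun y => y ⬝ᵥ hv (1 - η m * om v) (V v)) hm1
      simp only [add_dotProduct, sum_dotProduct, smul_dotProduct,
        hD.memF m x.1 _ v v.2, hD.memF m x'.1 _ v v.2, smul_zero, Finset.sum_const_zero,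
        zero_add] at h1
      rw [Finset.sum_eq_single v] at h1
      · rw [hbv (fun v => 1 - η m * om v) v v, if_pos rfl] at h1
        simpa using h1.symm
      · intro w _ hw
        rw [hbv (fun v => 1 - η m * om v) w v, if_neg hw, smul_zero]
      · intro h'
        exact absurd (mem_univ _) h'
    simp only [hc0, zero_smul, Finset.sum_const_zero, add_zero] at hm1
    exact hD.disj m x.1 x'.1 (fun h' => hxx' (Subtype.ext h')) t (fun j => c m (Sum.inl j)) ht hm2
      hm1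
  · -- val
    intro b' hb'
    rw [← val0 h hD hΔ₀ hFΔ]
    have h1 : ∀ x, adet (Sum.elim (fun j => ray (kk0 dd) (D x j))
        (fun v : {v // v ∈ F} => b' v)) = adet (Sum.elim (fun j => ray (kk0 dd) (D x j)) b) := by
      intro x
      refine adet_dual_indep _ (fun v : {v // v ∈ F} => hv 1 (V v)) _ _
        (fun j v => hD.memF0 h.lim x j v v.2) (fun u v => ?_) (fun u v => hbv (fun _ => 1) u v)
        (by simpa using hℓ)
      rw [hb' u u.2 v v.2]
      simp only [Subtype.ext_iff]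
    simp only [h1]
    rw [← Finset.sum_subtype (univ.filter fun x => LinearIndependent ℝ fun j =>
      ray (kk0 dd) (D x j)) (p := fun x => LinearIndependent ℝ fun j => ray (kk0 dd) (D x j))
      (by simp) (fun x => adet (Sum.elim (fun j => ray (kk0 dd) (D x j)) b) /
        ∏ j, (ray (kk0 dd) (D x j) ⬝ᵥ (Fin.cons s ξ : Fin (n + 1) → ℝ)))]
    refine Finset.sum_filter_of_ne fun x _ hx => ?_
    by_contra hnli
    apply hx
    rw [adet_eq_zero_of_not_li _ _ hnli, zero_div]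



section Ex

open Pool.Agent.helper14.NS Pool.Agent.helper61.DLI

variable {n : ℕ} {ι : Type} [Fintype ι] [DecidableEq ι]

theorem dot_hv1 (z : Fin (n + 1) → ℝ) (v : Fin n → ℝ) :
    z ⬝ᵥ hv 1 v = (fun i : Fin n => z i.succ) ⬝ᵥ v - z 0 := by
  simp only [hv, dotProduct, Fin.sum_univ_succ, Fin.cons_zero, Fin.cons_succ]
  ring

omit [Fintype ι] [DecidableEq ι] in
/-- coefficients of a vector of a span -/
theorem span_rep (P : Finset ι) (w : ι → Fin n → ℝ) (y : Fin n → ℝ)
    (h : y ∈ Submodule.span ℝ (w '' (P : Set ι))) : ∃ e : ι → ℝ, ∑ v ∈ P, e v • w v = y := by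
  classical
  obtain ⟨c, hc⟩ := (Submodule.mem_span_image_finset_iff_exists_fun ℝ).1 h
  refine ⟨fun v => if h : v ∈ P then c ⟨v, h⟩ else 0, ?_⟩
  rw [← hc, ← Finset.sum_coe_sort]
  exact Finset.sum_congr rfl fun v _ => by simp only [dif_pos v.2]

omit [DecidableEq ι] in
/-- the normalised weight of a compact face -/
theorem exists_kappa (hn : 0 < n) {V : ι → Fin n →₀ ℕ}
    (hconv : ∀ j : Fin n, ∃ i, 0 < V i j ∧ ∀ j', j' ≠ j → V i j' = 0) (hV0 : ∀ i, V i ≠ 0)
    (G : Finset ι) (hG : G ∈ facesI V) :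
    G.Nonempty ∧ ∃ κ : Fin n → ℝ, (∀ j, 0 < κ j) ∧ (∀ i, 1 ≤ κ ⬝ᵥ rV V i) ∧
      ∀ i, i ∈ G ↔ κ ⬝ᵥ rV V i = 1 := by
  classical
  unfold facesI at hG
  rw [Finset.mem_filter] at hG
  obtain ⟨-, w, hw, hGw⟩ := hG
  obtain ⟨i₀, -, -⟩ := hconv ⟨0, hn⟩
  obtain ⟨i₁, -, hi₁⟩ := Finset.exists_min_image (Finset.univ : Finset ι)
    (fun i => ∑ j, w j * V i j) ⟨i₀, Finset.mem_univ _⟩
  have h1G : i₁ ∈ G := (hGw i₁).2 fun i' => hi₁ i' (Finset.mem_univ _)
  set N : ℕ := ∑ j, w j * V i₁ j with hN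
  have hNpos : 0 < N := by
    obtain ⟨j, hj⟩ : ∃ j, V i₁ j ≠ 0 := by
      by_contra hcon
      push Not at hcon
      exact hV0 i₁ (Finsupp.ext hcon)
    exact Finset.sum_pos' (fun _ _ => Nat.zero_le _)
      ⟨j, Finset.mem_univ _, Nat.mul_pos (hw j) (Nat.pos_of_ne_zero hj)⟩
  have hNr : (0 : ℝ) < N := by exact_mod_cast hNpos
  have hdot : ∀ i, (fun j => (w j : ℝ) / N) ⬝ᵥ rV V i = ((∑ j, w j * V i j : ℕ) : ℝ) / N := by
    intro i
    unfold rV dotProduct
    push_cast
    rw [Finset.sum_div]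
    exact Finset.sum_congr rfl fun j _ => by ring
  refine ⟨⟨i₁, h1G⟩, fun j => (w j : ℝ) / N, fun j => ?_, fun i => ?_, fun i => ?_⟩
  · have : (0 : ℝ) < w j := by exact_mod_cast hw j
    positivity
  · rw [hdot, one_le_div hNr]
    exact_mod_cast hi₁ i (Finset.mem_univ _)
  · rw [hdot, div_eq_one_iff_eq hNr.ne', hGw i]
    constructor
    · intro h
      have h2 := h i₁
      have h3 := hi₁ i (Finset.mem_univ _)
      exact_mod_cast le_antisymm h2 h3
    · intro h i'
      have h2 : ∑ j, w j * V i j = N := by exact_mod_cast h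
      rw [h2]
      exact hi₁ i' (Finset.mem_univ _)

/-- every compact face contains a simplex of the triangulation of the same dimension -/
theorem exists_spanF (hn : 0 < n) {V : ι → Fin n →₀ ℕ} {om : ι → ℤ} {ε : ℚ}
    (hT : Tri V om ε) (hV0 : ∀ i, V i ≠ 0) (G : Finset ι) (hG : G ∈ facesI V) :
    ∃ F ∈ fcs (maxS V om ε), F ≠ ∅ ∧ tau (rV V) F = G ∧ F ⊆ G ∧
      ∀ u ∈ G, hv 1 (rV V u) ∈ Submodule.span ℝ ((fun v => hv 1 (rV V v)) '' (F : Set ι)) := by
  classical
  obtain ⟨hGne, κ, hκ0, hκ1, hκG⟩ := exists_kappa hn hT.conv hV0 G hG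
  set SG : Submodule ℝ (Fin n → ℝ) := Submodule.span ℝ (rV V '' (G : Set ι)) with hSG
  set WD : Finset ι → Submodule ℝ (Fin n → ℝ) := fun Δ =>
    Submodule.span ℝ (rV V '' ((Δ ∩ G : Finset ι) : Set ι)) with hWD
  obtain ⟨g, hgS, hgW⟩ := exists_avoid SG
    (fun Δ : {Δ : Finset ι // ¬ SG ≤ WD Δ} => WD Δ.1) (fun Δ => Δ.2)
  obtain ⟨a, ha⟩ := span_rep G (rV V) g hgS
  have h1 := avoid_line (fun Δ : {Δ : Finset ι // ¬ SG ≤ WD Δ} => WD Δ.1)
    (∑ v ∈ G, rV V v) g hgW
  have h2 : ∀ᶠ δ : ℝ in 𝓝[>] 0, ∀ v, 0 < 1 + δ * a v := by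
    rw [Filter.eventually_all]
    intro v
    have hc : Continuous fun δ : ℝ => 1 + δ * a v := by fun_prop
    exact ((hc.tendsto 0).eventually (lt_mem_nhds (by simp))).filter_mono nhdsWithin_le_nhds
  obtain ⟨δ, hδ1, hδ2⟩ := (h1.and h2).exists
  set b : ι → ℝ := fun v => 1 + δ * a v with hb
  set x : Fin n → ℝ := ∑ v ∈ G, b v • rV V v with hx
  have hxW : ∀ Δ : {Δ : Finset ι // ¬ SG ≤ WD Δ}, x ∉ WD Δ.1 := by
    intro Δ
    have h3 := hδ1 Δ
    have h4 : ∑ v ∈ G, rV V v + δ • g = x := by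
      rw [hx, ← ha, Finset.smul_sum, ← Finset.sum_add_distrib]
      refine Finset.sum_congr rfl fun v _ => ?_
      rw [hb]
      simp only [add_smul, one_smul, smul_smul]
    rwa [h4] at h3
  have hx0 : ∀ j, 0 ≤ x j := by
    intro j
    rw [hx, Finset.sum_apply]
    refine Finset.sum_nonneg fun v _ => ?_
    simp only [Pi.smul_apply, smul_eq_mul, rV]
    have := (hδ2 v).le
    positivity
  obtain ⟨Δ, hΔ, c, hc0, hcΔ, hcx⟩ := cover_cone hn hT hV0 x hx0
  have hcx' : x = ∑ v, c v • rV V v := by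
    funext j
    rw [hcx j, Finset.sum_apply]
    rfl
  -- the facet functional
  obtain ⟨hΔcard, k₁, hk₁, hk₁'⟩ := (mem_maxS Δ).1 hΔ
  obtain ⟨k', hk', hk'Δ⟩ := hT.compat k₁ Δ hΔcard hk₁ hk₁'
  have hdtq : ∀ i, (fun j => (k' j : ℝ)) ⬝ᵥ rV V i =
      ((Pool.Agent.helper11.NSR.dt k' (qv V i) : ℚ) : ℝ) := by
    intro i
    unfold Pool.Agent.helper11.NSR.dt rV dotProduct qv
    push_cast
    rfl
  have hkr : ∀ i, 1 ≤ (fun j => (k' j : ℝ)) ⬝ᵥ rV V i := fun i => by
    rw [hdtq]; exact_mod_cast hk' i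
  have hkrΔ : ∀ i ∈ Δ, (fun j => (k' j : ℝ)) ⬝ᵥ rV V i = 1 := fun i hi => by
    rw [hdtq, hk'Δ i hi, Rat.cast_one]
  have hsum1 : (fun j => (k' j : ℝ)) ⬝ᵥ x = ∑ v, c v := by
    rw [hcx', dotProduct_sum]
    refine Finset.sum_congr rfl fun v _ => ?_
    rw [dotProduct_smul, smul_eq_mul]
    by_cases hv : v ∈ Δ
    · rw [hkrΔ v hv, mul_one]
    · rw [hcΔ v hv, zero_mul]
  have hsum2 : ∑ v ∈ G, b v ≤ (fun j => (k' j : ℝ)) ⬝ᵥ x := by
    rw [hx, dotProduct_sum]
    refine Finset.sum_le_sum fun v _ => ?_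
    rw [dotProduct_smul, smul_eq_mul]
    exact le_mul_of_one_le_right (hδ2 v).le (hkr v)
  have hsum3 : κ ⬝ᵥ x = ∑ v ∈ G, b v := by
    rw [hx, dotProduct_sum]
    refine Finset.sum_congr rfl fun v hv => ?_
    rw [dotProduct_smul, (hκG v).1 hv, smul_eq_mul, mul_one]
  have hsum4 : κ ⬝ᵥ x = ∑ v, c v * (κ ⬝ᵥ rV V v) := by
    rw [hcx', dotProduct_sum]
    exact Finset.sum_congr rfl fun v _ => by rw [dotProduct_smul, smul_eq_mul]
  have hsum5 : ∑ v, c v * (κ ⬝ᵥ rV V v - 1) ≤ 0 := by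
    have : ∑ v, c v * (κ ⬝ᵥ rV V v - 1) = κ ⬝ᵥ x - ∑ v, c v := by
      rw [hsum4, ← Finset.sum_sub_distrib]
      exact Finset.sum_congr rfl fun v _ => by ring
    rw [this, hsum3]
    linarith
  have hnn : ∀ v ∈ (Finset.univ : Finset ι), 0 ≤ c v * (κ ⬝ᵥ rV V v - 1) := fun v _ =>
    mul_nonneg (hc0 v) (by linarith [hκ1 v])
  have hz := (Finset.sum_eq_zero_iff_of_nonneg hnn).1
    (le_antisymm hsum5 (Finset.sum_nonneg hnn))
  have hcG : ∀ v, v ∉ G → c v = 0 := by
    intro v hv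
    rcases mul_eq_zero.1 (hz v (Finset.mem_univ _)) with h | h
    · exact h
    · exact absurd ((hκG v).2 (by linarith)) hv
  have hxWΔ : x ∈ WD Δ := by
    rw [hcx']
    refine Submodule.sum_mem _ fun v _ => ?_
    by_cases hv : v ∈ Δ ∩ G
    · exact Submodule.smul_mem _ _ (Submodule.subset_span ⟨v, by exact_mod_cast hv, rfl⟩)
    · have : c v = 0 := by
        rw [Finset.mem_inter, not_and_or] at hv
        rcases hv with h | h
        · exact hcΔ v h
        · exact hcG v h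
      rw [this, zero_smul]
      exact Submodule.zero_mem _
  have hle : SG ≤ WD Δ := by
    by_contra hcon
    exact hxW ⟨Δ, hcon⟩ hxWΔ
  -- coefficients of the points of `G`
  have hrep : ∀ u ∈ G, ∃ e : ι → ℝ, ∑ v ∈ Δ ∩ G, e v • rV V v = rV V u := by
    intro u hu
    have h3 : rV V u ∈ WD Δ := hle (Submodule.subset_span ⟨u, hu, rfl⟩)
    exact span_rep _ _ _ h3
  have hrep1 : ∀ u ∈ G, ∀ e : ι → ℝ, ∑ v ∈ Δ ∩ G, e v • rV V v = rV V u →
      ∑ v ∈ Δ ∩ G, e v = 1 := by
    intro u hu e he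
    have h3 := congrArg (fun y => κ ⬝ᵥ y) he
    simp only [dotProduct_sum, dotProduct_smul, (hκG u).1 hu, smul_eq_mul] at h3
    rw [← h3]
    refine Finset.sum_congr rfl fun v hv => ?_
    rw [(hκG v).1 (Finset.mem_inter.1 hv).2, mul_one]
  refine ⟨Δ ∩ G, ?_, ?_, ?_, Finset.inter_subset_right, ?_⟩
  · unfold fcs
    rw [Finset.mem_biUnion]
    exact ⟨Δ, hΔ, Finset.mem_powerset.2 Finset.inter_subset_left⟩
  · intro h0
    obtain ⟨u, hu⟩ := hGne
    obtain ⟨e, he⟩ := hrep u hu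
    have h3 := hrep1 u hu e he
    rw [h0, Finset.sum_empty] at h3
    exact zero_ne_one h3
  · ext u
    unfold tau
    rw [Finset.mem_filter]
    constructor
    · rintro ⟨-, h⟩
      exact (hκG u).2 (h κ hκ1 fun v hv => (hκG v).1 (Finset.mem_inter.1 hv).2)
    · intro hu
      refine ⟨Finset.mem_univ _, fun k _ hkF => ?_⟩
      obtain ⟨e, he⟩ := hrep u hu
      rw [← he, dotProduct_sum, ← hrep1 u hu e he]
      refine Finset.sum_congr rfl fun v hv => ?_
      rw [dotProduct_smul, hkF v hv, smul_eq_mul, mul_one]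
  · intro u hu
    obtain ⟨e, he⟩ := hrep u hu
    have h3 : hv 1 (rV V u) = ∑ v ∈ Δ ∩ G, e v • hv 1 (rV V v) := by
      funext i
      rw [Finset.sum_apply]
      induction i using Fin.cases with
      | zero =>
        simp only [hv, Pi.smul_apply, Fin.cons_zero, smul_eq_mul, mul_neg, mul_one,
          Finset.sum_neg_distrib, hrep1 u hu e he]
      | succ i =>
        simp only [hv, Pi.smul_apply, Fin.cons_succ]
        rw [← he, Finset.sum_apply]
        rfl
    rw [h3]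
    exact Submodule.sum_mem _ fun v hv => Submodule.smul_mem _ _
      (Submodule.subset_span ⟨v, by exact_mod_cast hv, rfl⟩)

/-- the hypotheses of the limit theorem are satisfiable -/
theorem exists_limHyp (hn : 0 < n) {V : ι → Fin n →₀ ℕ} {om : ι → ℤ} {ε : ℚ}
    (hT : Tri V om ε) (hV0 : ∀ i, V i ≠ 0) :
    ∃ (dd : Finset ι → ι → Fin n → ℚ) (η : ℕ → ℝ) (s : ℝ) (ξ : Fin n → ℝ),
      (∀ F ∈ fcs (maxS V om ε), LinearIndependent ℝ (fun v : {v // v ∈ F} => rV V v)) ∧
      ∀ F ∈ fcs (maxS V om ε), LimHyp (rV V) (fun i => (om i : ℝ)) (maxS V om ε)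
        (fun Δ v j => (dd Δ v j : ℝ)) η F s ξ := by
  classical
  obtain ⟨dd, ε₁, hε₁, hpoly, hone⟩ := tri_poly hn hT hV0
  set 𝒱 := maxS V om ε with h𝒱
  have hcard : ∀ Δ ∈ 𝒱, Δ.card = n := maxS_card
  have hP1 := hpoly ε₁ hε₁ le_rfl
  have hdd0 : ∀ Δ ∈ 𝒱, ∀ v ∈ Δ, dd Δ v ≠ 0 := by
    intro Δ hΔ v hv h0
    have h1 := hP1.dual Δ hΔ v hv v hv
    simp only [h0] at h1
    simp [dotProduct] at h1
  obtain ⟨η, hη⟩ := exists_eta 𝒱 dd hdd0
  -- a positive generic vector
  have hdotr : ∀ Δ ∈ 𝒱, ∀ v ∈ Δ, ∀ e : ℝ, (fun j => (dd Δ v j : ℝ)) ⬝ᵥ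
      (fun j => 1 + e * (η j : ℝ)) = ((∑ j, dd Δ v j : ℚ) : ℝ) + e * ((dd Δ v ⬝ᵥ η : ℚ) : ℝ) := by
    intro Δ _ v _ e
    simp only [dotProduct]
    push_cast
    rw [Finset.mul_sum, ← Finset.sum_add_distrib]
    exact Finset.sum_congr rfl fun j _ => by ring
  have hev1 : ∀ᶠ e in 𝓝[>] (0 : ℝ), ∀ i : Fin n, 0 < 1 + e * (η i : ℝ) := by
    rw [Filter.eventually_all]
    intro i
    have h1 : Continuous fun e : ℝ => 1 + e * (η i : ℝ) := by fun_prop
    have h2 : ∀ᶠ e in 𝓝 (0 : ℝ), 0 < 1 + e * (η i : ℝ) := by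
      refine (h1.tendsto 0).eventually (lt_mem_nhds ?_)
      simp
    exact h2.filter_mono nhdsWithin_le_nhds
  have hev2 : ∀ᶠ e in 𝓝[>] (0 : ℝ), ∀ Δ ∈ 𝒱, ∀ v ∈ Δ,
      (fun j => (dd Δ v j : ℝ)) ⬝ᵥ (fun j => 1 + e * (η j : ℝ)) ≠ 0 := by
    rw [Finset.eventually_all]
    intro Δ hΔ
    rw [Finset.eventually_all]
    intro v hv
    simp only [hdotr Δ hΔ v hv]
    by_cases hE' : (∑ j, dd Δ v j) = 0
    · filter_upwards [self_mem_nhdsWithin] with e he
      have he' : (0 : ℝ) < e := he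
      rw [hE', Rat.cast_zero, zero_add]
      exact mul_ne_zero he'.ne' (by exact_mod_cast hη Δ hΔ v hv)
    · have h1 : Continuous fun e : ℝ => ((∑ j, dd Δ v j : ℚ) : ℝ) +
          e * ((dd Δ v ⬝ᵥ η : ℚ) : ℝ) := by fun_prop
      have h2 : ∀ᶠ e in 𝓝 (0 : ℝ), ((∑ j, dd Δ v j : ℚ) : ℝ) +
          e * ((dd Δ v ⬝ᵥ η : ℚ) : ℝ) ≠ 0 := by
        refine h1.continuousAt.eventually_ne ?_
        rw [zero_mul, add_zero]
        exact_mod_cast hE'
      exact h2.filter_mono nhdsWithin_le_nhds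
  obtain ⟨e, he1, he2⟩ := (hev1.and hev2).exists
  set ξ : Fin n → ℝ := fun j => 1 + e * (η j : ℝ) with hξdef
  have hfcs : ∀ F, F ∈ fcs 𝒱 ↔ ∃ Δ ∈ 𝒱, F ⊆ Δ := by
    intro F
    unfold fcs
    simp
  -- linear independence
  have hliΔ : ∀ Δ ∈ 𝒱, LinearIndependent ℝ (fun v : {v // v ∈ Δ} => rV V v) := by
    intro Δ hΔ
    rw [Fintype.linearIndependent_iff]
    intro g hg i
    have h1 : (fun j => (dd Δ i j : ℝ)) ⬝ᵥ (∑ v : {i // i ∈ Δ}, g v • rV V v) = 0 := by
      rw [hg, dotProduct_zero]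
    rw [dotProduct_sum] at h1
    have h2 : ∀ v : {i // i ∈ Δ}, (fun j => (dd Δ i j : ℝ)) ⬝ᵥ g v • rV V v =
        if v = i then g v else 0 := by
      intro v
      rw [dotProduct_smul, hP1.dual Δ hΔ i i.2 v v.2, smul_eq_mul]
      by_cases hv : v = i
      · subst hv; simp
      · rw [if_neg hv, if_neg (fun h => hv (Subtype.ext h.symm)), mul_zero]
    rw [Finset.sum_congr rfl fun v _ => h2 v] at h1
    simpa using h1
  have hli : ∀ F ∈ fcs 𝒱, LinearIndependent ℝ (fun v : {v // v ∈ F} => rV V v) := by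
    intro F hF
    obtain ⟨Δ, hΔ, hFΔ⟩ := (hfcs F).1 hF
    exact (hliΔ Δ hΔ).comp (fun v : {v // v ∈ F} => (⟨v.1, hFΔ v.2⟩ : {v // v ∈ Δ}))
      (fun a b hab => Subtype.ext (Subtype.mk.inj hab))
  -- the hypotheses of the limit
  have hcast : ∀ j, ∀ Δ : Finset ι, ((∑ v ∈ Δ, dd Δ v j : ℚ) : ℝ) = ∑ v ∈ Δ, (dd Δ v j : ℝ) := by
    intro j Δ
    push_cast
    rfl
  have hX : ∀ G ∈ fcs 𝒱, G.card < n → (∀ i, ∃ v ∈ G, rV V v i ≠ 0) →
      ∑ Δ ∈ 𝒱 with G ⊆ Δ, 1 / (adet (fun v : {v // v ∈ Δ} => rV V v) *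
        ∏ v ∈ Δ \ G, (fun j => (dd Δ v j : ℝ)) ⬝ᵥ ξ) = 0 := by
    intro G hG hGn hGc
    have h1 := low_K (K := ℝ) hT dd (fun Δ hΔ => hP1.dual Δ hΔ) ξ
      (fun Δ v => if v ∈ Δ then ∑ a, (dd Δ v a : ℝ) * ξ a else 0) (fun _ _ => rfl)
      (fun Δ hΔ v hv => by
        rw [if_pos hv]
        exact he2 Δ hΔ v hv) G (fun j => by
          obtain ⟨v, hv, h⟩ := hGc j
          refine ⟨v, hv, ?_⟩
          intro h0
          apply h
          simp [rV, h0]) 1 0 (MvPolynomial.isHomogeneous_one ι ℝ) (by omega)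
    rw [← h1]
    refine Finset.sum_congr rfl fun Δ hΔ => ?_
    obtain ⟨h2, h3⟩ := Finset.mem_filter.1 hΔ
    rw [adet_volQ V Δ (hcard Δ h2), map_one]
    congr 2
    refine Finset.prod_congr rfl fun v hv => ?_
    rw [if_pos (Finset.mem_sdiff.1 hv).1]
    rfl
  refine ⟨dd, fun m : ℕ => (ε₁ : ℝ) / (m + 1), 1, ξ, hli, fun F hF => ?_⟩
  have hε₁' : (0 : ℝ) < ε₁ := by exact_mod_cast hε₁
  refine ⟨fun m => by positivity, ?_, fun m => ?_, ?_, hF, one_pos, he1, he2, hX⟩
  · have h1 := tendsto_one_div_add_atTop_nhds_zero_nat (𝕜 := ℝ)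
    have h2 := h1.const_mul (ε₁ : ℝ)
    rw [mul_zero] at h2
    refine h2.congr fun m => ?_
    rw [mul_one_div]
  · have h1 := hpoly (ε₁ / (m + 1)) (by positivity) (by
      rw [div_le_iff₀ (by positivity)]
      have : (0 : ℚ) ≤ m := by positivity
      nlinarith)
    have e1 : (fun i => ((1 - ε₁ / (m + 1) * om i : ℚ) : ℝ)) =
        fun i => 1 - (ε₁ : ℝ) / (m + 1) * (om i : ℝ) := by
      funext i
      push_cast
      rfl
    have e2 : (fun (Δ : Finset ι) j => ((∑ v ∈ Δ, (1 - ε₁ / (m + 1) * om v) * dd Δ v j : ℚ) : ℝ)) =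
        fun Δ j => ∑ v ∈ Δ, (1 - (ε₁ : ℝ) / (m + 1) * (om v : ℝ)) * (dd Δ v j : ℝ) := by
      funext Δ j
      push_cast
      rfl
    rw [e1, e2] at h1
    exact h1
  · intro Δ hΔ i
    have h1 := hone Δ hΔ i
    simpa only [hcast] using h1

/-- clearing denominators -/
theorem clear_den (p : Fin n → ℚ) (hp : ∀ i, 0 ≤ p i) :
    ∃ (a : Fin n → ℕ) (d : ℕ), 0 < d ∧ ∀ i, (a i : ℚ) = d * p i := by
  classical
  set d : ℕ := ∏ i, (p i).den with hd
  have hdpos : 0 < d := Finset.prod_pos fun i _ => (p i).den_pos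
  have h1 : ∀ i, ∃ m : ℕ, (m : ℚ) = d * p i := by
    intro i
    obtain ⟨c, hc⟩ : (p i).den ∣ d := Finset.dvd_prod_of_mem _ (Finset.mem_univ i)
    refine ⟨c * (p i).num.toNat, ?_⟩
    have h2 : ((p i).num.toNat : ℚ) = (p i).num := by
      have : (0 : ℤ) ≤ (p i).num := Rat.num_nonneg.2 (hp i)
      exact_mod_cast Int.toNat_of_nonneg this
    have h3 : ((p i).den : ℚ) * p i = (p i).num := by
      rw [mul_comm]
      exact Rat.mul_den_eq_num (p i)
    push_cast
    rw [h2, hc]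
    push_cast
    rw [← h3]
    ring
  choose a ha using h1
  exact ⟨a, d, hdpos, ha⟩

/-- **Existence of the subdivisions**, indexed version. -/
theorem exists_subI (hn : 0 < n) {V : ι → Fin n →₀ ℕ} {om : ι → ℤ} {ε : ℚ}
    (hT : Tri V om ε) (hV0 : ∀ i, V i ≠ 0) (G : Finset ι) (hG : G ∈ facesI V) :
    ∃ S : Finset (Finset (Fin n → ℕ)), SubI V G S := by
  classical
  obtain ⟨dd, η, s, ξ, hli, hLim⟩ := exists_limHyp hn hT hV0
  obtain ⟨-, κ, hκ0, hκ1, hκG⟩ := exists_kappa hn hT.conv hV0 G hG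
  obtain ⟨F, hF, hFne, hFG, hFsub, hspan⟩ := exists_spanF hn hT hV0 G hG
  have hL := hLim F hF
  have htau : ∀ u ∈ tau (rV V) F,
      hv 1 (rV V u) ∈ Submodule.span ℝ ((fun v => hv 1 (rV V v)) '' (F : Set ι)) := by
    rw [hFG]; exact hspan
  have hFcard : F.card = fdim (ex V G) + 1 :=
    ((span_iff hn hT.conv hV0 F hFne (hli F hF) G hG).2 ⟨hFG, htau⟩).2
  have hFn : F.card ≤ n := by
    unfold fcs at hF
    rw [Finset.mem_biUnion] at hF
    obtain ⟨Δ, hΔ, h⟩ := hF
    rw [← maxS_card Δ hΔ]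
    exact Finset.card_le_card (Finset.mem_powerset.1 h)
  obtain ⟨ℓ, hℓ⟩ : ∃ ℓ, ℓ + F.card = n + 1 := ⟨n + 1 - F.card, by omega⟩
  obtain ⟨β, hβ, D, hD⟩ := lim_dec_sym hL hFne htau ℓ (by omega) hℓ
  obtain ⟨v₀, hv₀⟩ := Finset.nonempty_iff_ne_empty.2 hFne
  set ddr : Finset ι → ι → Fin n → ℝ := fun Δ v j => (dd Δ v j : ℝ) with hddr
  -- rational rays
  have hrat : ∀ q : Fin n ⊕ Finset ι, (∀ i, 0 ≤ ray (kk0 ddr) q i) →
      ∃ (a : Fin n → ℕ) (c : ℝ), 0 < c ∧ ∀ i : Fin n, (a i : ℝ) = c * ray (kk0 ddr) q i.succ := by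
    intro q hq
    rcases q with q | Δ
    · refine ⟨fun i => if i = q then 1 else 0, 1, one_pos, fun i => ?_⟩
      simp only [ray, Sum.elim_inl, Fin.cons_succ, Pi.single_apply, one_mul]
      split_ifs <;> simp
    · obtain ⟨a, d, hd, ha⟩ := clear_den (fun i => ∑ v ∈ Δ, dd Δ v i) (fun i => by
        have h1 := hq i.succ
        simp only [ray, Sum.elim_inr, Fin.cons_succ, kk0, hddr] at h1
        exact_mod_cast h1)
      refine ⟨a, d, by exact_mod_cast hd, fun i => ?_⟩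
      simp only [ray, Sum.elim_inr, Fin.cons_succ, kk0, hddr]
      have h1 := ha i
      exact_mod_cast h1
  choose A c hc hA using fun (x : β) (j : Fin ℓ) => hrat (D x j) (hD.nonneg x j)
  -- the last coordinate
  have hz0 : ∀ x j, ray (kk0 ddr) (D x j) 0 =
      (fun i : Fin n => ray (kk0 ddr) (D x j) i.succ) ⬝ᵥ rV V v₀ := by
    intro x j
    have h1 := hD.memF x j v₀ hv₀
    rw [dot_hv1] at h1
    linarith
  -- lifting relations
  have hlift : ∀ x x' (t t' : Fin ℓ → ℝ), (∀ i, ∑ j, t j * (A x j i : ℝ) =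
      ∑ j, t' j * (A x' j i : ℝ)) → ∑ j, (t j * c x j) • ray (kk0 ddr) (D x j) =
      ∑ j, (t' j * c x' j) • ray (kk0 ddr) (D x' j) := by
    intro x x' t t' h
    have h1 : ∀ i : Fin n, ∑ j, (t j * c x j) * ray (kk0 ddr) (D x j) i.succ =
        ∑ j, (t' j * c x' j) * ray (kk0 ddr) (D x' j) i.succ := by
      intro i
      have h2 := h i
      simp only [hA, ← mul_assoc] at h2
      exact h2
    funext i
    simp only [Finset.sum_apply, Pi.smul_apply, smul_eq_mul]
    induction i using Fin.cases with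
    | zero =>
      simp only [hz0, dotProduct, Finset.mul_sum]
      rw [Finset.sum_comm, Finset.sum_comm (s := (Finset.univ : Finset (Fin ℓ)))
        (t := (Finset.univ : Finset (Fin n)))]
      refine Finset.sum_congr rfl fun i _ => ?_
      have h2 := congrArg (fun y => y * rV V v₀ i) (h1 i)
      simp only [Finset.sum_mul] at h2
      simpa only [mul_assoc] using h2
    | succ i => exact h1 i
  -- linear independence of the tails
  have hAli : ∀ x, LinearIndependent ℝ (fun (j : Fin ℓ) (i : Fin n) => (A x j i : ℝ)) := by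
    intro x
    rw [Fintype.linearIndependent_iff]
    intro t ht j
    have h1 := hlift x x t 0 (fun i => by
      have h2 := congrFun ht i
      simp only [Finset.sum_apply, Pi.smul_apply, smul_eq_mul, Pi.zero_apply] at h2
      rw [h2]
      simp)
    simp only [Pi.zero_apply, zero_mul, zero_smul, Finset.sum_const_zero] at h1
    have h2 := Fintype.linearIndependent_iff.1 (hD.li x) _ h1 j
    exact (mul_eq_zero.1 h2).resolve_right (hc x j).ne'
  have hAinj : ∀ x, Function.Injective (A x) := by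
    intro x j j' h
    exact (hAli x).injective (by simp only [h])
  set δ : β → Finset (Fin n → ℕ) := fun x => Finset.univ.image (A x) with hδ
  have hsumδ : ∀ x (t : (Fin n → ℕ) → ℝ) (i : Fin n),
      ∑ a ∈ δ x, t a * (a i : ℝ) = ∑ j, t (A x j) * (A x j i : ℝ) := by
    intro x t i
    rw [hδ]
    exact Finset.sum_image fun j _ j' _ h => hAinj x h
  have hG0 : ∀ x j, ∀ u ∈ G, ray (kk0 ddr) (D x j) ⬝ᵥ hv 1 (rV V u) = 0 := by
    intro x j u hu
    have h1 := hspan u hu
    refine Submodule.span_induction (p := fun y _ => ray (kk0 ddr) (D x j) ⬝ᵥ y = 0) ?_ ?_ ?_ ?_ h1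
    · rintro y ⟨v, hv, rfl⟩
      exact hD.memF x j v hv
    · exact dotProduct_zero _
    · intro y y' _ _ h h'
      rw [dotProduct_add, h, h', add_zero]
    · intro r y _ h
      rw [dotProduct_smul, h, smul_zero]
  have hAdot : ∀ x j u, ((∑ i, A x j i * V u i : ℕ) : ℝ) =
      c x j * (ray (kk0 ddr) (D x j) ⬝ᵥ hv 1 (rV V u) + ray (kk0 ddr) (D x j) 0) := by
    intro x j u
    rw [dot_hv1, sub_add_cancel, dotProduct, Finset.mul_sum]
    push_cast
    refine Finset.sum_congr rfl fun i _ => ?_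
    rw [hA x j i]
    unfold rV
    ring
  refine ⟨Finset.univ.image δ, ?_, ?_, ?_, ?_, ?_⟩
  · intro d hd
    obtain ⟨x, -, rfl⟩ := Finset.mem_image.1 hd
    have h1 : (δ x).card = ℓ := by
      rw [hδ]
      simp only
      rw [Finset.card_image_of_injective _ (hAinj x), Finset.card_univ, Fintype.card_fin]
    omega
  · intro d hd a ha v hv u
    obtain ⟨x, -, rfl⟩ := Finset.mem_image.1 hd
    obtain ⟨j, -, rfl⟩ := Finset.mem_image.1 ha
    have h1 := hAdot x j v
    have h2 := hAdot x j u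
    rw [hG0 x j v hv, zero_add] at h1
    have h3 : ((∑ i, A x j i * V v i : ℕ) : ℝ) ≤ ((∑ i, A x j i * V u i : ℕ) : ℝ) := by
      rw [h1, h2]
      refine mul_le_mul_of_nonneg_left ?_ (hc x j).le
      linarith [hD.mem x j u]
    exact_mod_cast h3
  · intro d hd
    obtain ⟨x, -, rfl⟩ := Finset.mem_image.1 hd
    have hex : ∀ a : δ x, ∃ j : Fin ℓ, A x j = a := by
      intro a
      obtain ⟨j, -, hj⟩ := Finset.mem_image.1 a.2
      exact ⟨j, hj⟩
    choose g hg using hex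
    have hginj : Function.Injective g := by
      intro a a' h
      apply Subtype.ext
      rw [← hg a, ← hg a', h]
    have h1 := (hAli x).comp g hginj
    have h2 : (fun (j : Fin ℓ) (i : Fin n) => (A x j i : ℝ)) ∘ g =
        (fun (a : δ x) (i : Fin n) => ((a : Fin n → ℕ) i : ℝ)) := by
      funext a
      simp only [Function.comp_apply, hg]
    rwa [h2] at h1
  · -- cover
    intro k hk hkG
    have hv₀G := hFsub hv₀
    set z : Fin (n + 1) → ℝ := Fin.cons (k ⬝ᵥ rV V v₀) k with hz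
    have hzdot : ∀ u, z ⬝ᵥ hv 1 (rV V u) = k ⬝ᵥ rV V u - k ⬝ᵥ rV V v₀ := by
      intro u
      rw [dot_hv1, hz]
      simp only [Fin.cons_succ, Fin.cons_zero]
    have hkG' : ∀ v ∈ G, ∀ u, k ⬝ᵥ rV V v ≤ k ⬝ᵥ rV V u := fun v hv u => hkG v hv u
    set gg : Fin (n + 1) → ℝ := Fin.cons 1 κ with hgg
    have hgdot : ∀ u, gg ⬝ᵥ hv 1 (rV V u) = κ ⬝ᵥ rV V u - 1 := by
      intro u
      rw [dot_hv1, hgg]
      simp only [Fin.cons_succ, Fin.cons_zero]
    have hz0' : 0 ≤ z 0 := by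
      rw [hz, Fin.cons_zero, dotProduct]
      refine Finset.sum_nonneg fun i _ => mul_nonneg (hk i) ?_
      unfold rV
      positivity
    obtain ⟨x, t, ht, hx⟩ := compact_cone (fun _ x j => ray (kk0 ddr) (D x j))
      (fun x j => ray (kk0 ddr) (D x j)) (fun x j i => tendsto_const_nhds)
      (fun m x j i => hD.nonneg x j i) (fun x j => ⟨_, fun _ => ray_one _ _⟩)
      (fun m => z + ((1 : ℝ) / (m + 1)) • gg) z (fun i => by
        have h1 : Tendsto (fun m : ℕ => z i + (1 : ℝ) / (m + 1) * gg i) atTop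
            (𝓝 (z i + 0 * gg i)) :=
          tendsto_const_nhds.add (tendsto_one_div_add_atTop_nhds_zero_nat.mul_const _)
        rw [zero_mul, add_zero] at h1
        exact h1) (by
        refine Filter.Frequently.of_forall fun m => ?_
        have hpos : (0 : ℝ) < 1 / ((m : ℝ) + 1) := by positivity
        refine hD.cover _ (fun u => ?_) (fun v hv => ?_) ?_
        · rw [add_dotProduct, smul_dotProduct, smul_eq_mul, hzdot, hgdot]
          have h1 := hkG' v₀ hv₀G u
          have h2 := hκ1 u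
          have h3 : 0 ≤ (1 : ℝ) / (m + 1) * (κ ⬝ᵥ rV V u - 1) :=
            mul_nonneg hpos.le (by linarith)
          linarith
        · rw [add_dotProduct, smul_dotProduct, smul_eq_mul, hzdot, hgdot,
            (hκG v).1 (hFsub hv), sub_self, mul_zero, add_zero]
          have h1 := hkG' v₀ hv₀G v
          have h2 := hkG' v (hFsub hv) v₀
          linarith
        · simp only [Pi.add_apply, Pi.smul_apply, smul_eq_mul]
          rw [hgg, Fin.cons_zero, mul_one]
          linarith)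
    refine ⟨δ x, Finset.mem_image_of_mem _ (Finset.mem_univ x),
      fun a => ∑ j, if A x j = a then t j / c x j else 0, fun a _ => ?_, fun i => ?_⟩
    · refine Finset.sum_nonneg fun j _ => ?_
      split_ifs
      · exact div_nonneg (ht j) (hc x j).le
      · exact le_rfl
    · rw [hsumδ x]
      have h1 : ∀ j, (∑ j', if A x j' = A x j then t j' / c x j' else 0) = t j / c x j := by
        intro j
        rw [Finset.sum_eq_single j]
        · rw [if_pos rfl]
        · intro j' _ hj'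
          rw [if_neg fun h => hj' (hAinj x h)]
        · intro h; exact absurd (Finset.mem_univ _) h
      have h2 := congrFun hx i.succ
      rw [hz, Fin.cons_succ, Finset.sum_apply] at h2
      rw [h2]
      refine Finset.sum_congr rfl fun j _ => ?_
      rw [h1 j, hA x j i, Pi.smul_apply, smul_eq_mul]
      have := (hc x j).ne'
      field_simp
  · -- disj
    intro d hd d' hd' hne t t' ht ht'
    obtain ⟨x, -, rfl⟩ := Finset.mem_image.1 hd
    obtain ⟨x', -, rfl⟩ := Finset.mem_image.1 hd'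
    by_contra hcon
    push Not at hcon
    refine hD.disj x x' (fun h => hne (by rw [h])) (fun j => t (A x j) * c x j)
      (fun j => t' (A x' j) * c x' j) (fun j => ?_) (fun j => ?_)
      (hlift x x' (fun j => t (A x j)) (fun j => t' (A x' j)) fun i => ?_)
    · exact mul_pos (ht _ (Finset.mem_image_of_mem _ (Finset.mem_univ _))) (hc x j)
    · exact mul_pos (ht' _ (Finset.mem_image_of_mem _ (Finset.mem_univ _))) (hc x' j)
    · rw [← hsumδ x, ← hsumδ x']
      exact hcon i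

end Ex

/-- **Existence**: the dual cone of every compact face of the Newton polyhedron of a convenient
polynomial has a simplicial subdivision. -/
theorem exists_subdivision {n : ℕ} (hn : 0 < n) (f : MvPolynomial (Fin n) ℂ)
    (hconv : Pool.Agent.helper14.Newton.Convenient f) (h0 : MvPolynomial.coeff 0 f = 0) :
    ∀ G ∈ faces f, ∃ S, IsSubdivision f G S := by
  classical
  intro G hG
  rw [faces_eq, Finset.mem_image] at hG
  obtain ⟨G', hG', rfl⟩ := hG
  obtain ⟨om, ε, hT⟩ := tri_generic f hconv h0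
  have hV0 : ∀ i, SV f i ≠ 0 := by
    rintro ⟨v, hv⟩ h
    simp only [SV] at h
    subst h
    exact (MvPolynomial.mem_support_iff.1 hv) h0
  obtain ⟨S, hS⟩ := exists_subI hn hT hV0 G' hG'
  refine ⟨S, hS.card, fun δ hδ a ha v hv => ?_, hS.indep, fun k hk hk' => ?_, hS.disj⟩
  · unfold ex at hv
    obtain ⟨v', hv', rfl⟩ := Finset.mem_image.1 hv
    unfold Pool.Agent.helper14.Newton.face
    rw [Finset.mem_filter]
    exact ⟨v'.2, fun u hu => hS.face δ hδ a ha v' hv' ⟨u, hu⟩⟩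
  · exact hS.cover k hk fun v hv u => hk' _ ((mem_ex f G' v).2 hv) _ u.2

end Pool.Agent.helper51.DL
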